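import Pool.Agent.Helper446.RE

/-!
Bushy trees of finite sequences.
-/

set_option autoImplicit false

namespace Pool.Agent.Zk92.Bushy

open Pool.Agent.Helper446

/-- `C` is `w`-big above `τ`: there is a finite tree above `τ`, in which each inner node `ρ` has at
least `w ρ.length` children and whose leaves are in `C`. -/
inductive Big (w : ℕ → ℕ) (C : List ℕ → Prop) : List ℕ → Prop
  | leaf {τ : List ℕ} (h : C τ) : Big w C τ
  | node {τ : List ℕ} (S : Finset ℕ) (hS : w τ.length ≤ S.card)
      (h : ∀ i ∈ S, Big w C (τ ++ [i])) : Big w C τ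

theorem Big.mono {w w' : ℕ → ℕ} {C C' : List ℕ → Prop} {τ : List ℕ} (h : Big w C τ)
    (hw : ∀ i, τ.length ≤ i → w' i ≤ w i) (hC : ∀ ρ, τ <+: ρ → C ρ → C' ρ) : Big w' C' τ := by
  induction h with
  | leaf h => exact .leaf (hC _ List.prefix_rfl h)
  | @node τ S hS h ih =>
    refine .node S ((hw _ le_rfl).trans hS) fun i hi => ih i hi ?_ ?_
    · intro j hj
      exact hw j (by rw [List.length_append] at hj; omega)
    · intro ρ hρ
      exact hC ρ ((List.prefix_append _ _).trans hρ)

theorem Big.trans {w : ℕ → ℕ} {C D : List ℕ → Prop} {τ : List ℕ} (h : Big w C τ)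
    (hCD : ∀ ρ, τ <+: ρ → C ρ → Big w D ρ) : Big w D τ := by
  induction h with
  | leaf h => exact hCD _ List.prefix_rfl h
  | @node τ S hS h ih =>
    refine .node S hS fun i hi => ih i hi ?_
    intro ρ hρ
    exact hCD ρ ((List.prefix_append _ _).trans hρ)

theorem Big.exists_leaf {w : ℕ → ℕ} {C : List ℕ → Prop} {τ : List ℕ} (h : Big w C τ)
    (hw : ∀ i, τ.length ≤ i → 0 < w i) : ∃ ρ, τ <+: ρ ∧ C ρ := by
  induction h with
  | @leaf τ h => exact ⟨τ, List.prefix_rfl, h⟩
  | @node τ S hS h ih =>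
    have h1 : 0 < S.card := (hw _ le_rfl).trans_le hS
    obtain ⟨i, hi⟩ := Finset.card_pos.1 h1
    obtain ⟨ρ, hρ, hC⟩ := ih i hi (fun j hj => hw j (by rw [List.length_append] at hj; omega))
    exact ⟨ρ, (List.prefix_append _ _).trans hρ, hC⟩

/-- pigeonhole principle -/
theorem Big.color {w w' : ℕ → ℕ} {q : ℕ} {C : List ℕ → Prop} {D : ℕ → List ℕ → Prop} {τ : List ℕ}
    (h : Big w C τ) (hq : 0 < q) (hw : ∀ i, τ.length ≤ i → q * w' i ≤ w i)
    (hC : ∀ ρ, τ <+: ρ → C ρ → ∃ c < q, D c ρ) : ∃ c < q, Big w' (D c) τ := by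
  classical
  induction h with
  | @leaf τ h =>
    obtain ⟨c, hc, hD⟩ := hC _ List.prefix_rfl h
    exact ⟨c, hc, .leaf hD⟩
  | @node τ S hS h ih =>
    have key : ∀ i, ∃ c, i ∈ S → c < q ∧ Big w' (D c) (τ ++ [i]) := by
      intro i
      by_cases hi : i ∈ S
      · obtain ⟨c, hc, hD⟩ := ih i hi (fun j hj => hw j (by rw [List.length_append] at hj; omega))
          (fun ρ hρ => hC ρ ((List.prefix_append _ _).trans hρ))
        exact ⟨c, fun _ => ⟨hc, hD⟩⟩
      · exact ⟨0, fun h => absurd h hi⟩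
    choose f hf using key
    have hmaps : ∀ i ∈ S, f i ∈ Finset.range q := fun i hi => Finset.mem_range.2 (hf i hi).1
    obtain ⟨c, hc, hcard⟩ := Finset.exists_le_card_fiber_of_mul_le_card_of_maps_to
      (s := S) (t := Finset.range q) (f := f) (n := w' τ.length) hmaps
      ⟨0, Finset.mem_range.2 hq⟩ (by
        rw [Finset.card_range]
        exact (hw _ le_rfl).trans hS)
    refine ⟨c, Finset.mem_range.1 hc, .node (S.filter fun i => f i = c) hcard ?_⟩
    intro i hi
    obtain ⟨h1, h2⟩ := Finset.mem_filter.1 hi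
    have := (hf i h1).2
    rwa [h2] at this

/-- closure: the set of the nodes which have a prefix of length at least `k` above which `D` is big
absorbs big trees -/
theorem Big.up {w : ℕ → ℕ} {D : List ℕ → Prop} {k : ℕ} {τ : List ℕ} (hk : k ≤ τ.length)
    (h : Big w (fun ρ => ∃ μ, μ <+: ρ ∧ k ≤ μ.length ∧ Big w D μ) τ)
    (hw : ∀ i, τ.length ≤ i → 0 < w i) :
    ∃ μ, μ <+: τ ∧ k ≤ μ.length ∧ Big w D μ := by
  induction h with
  | leaf h => exact h
  | @node τ S hS h ih =>
    by_cases hex : ∃ μ, μ <+: τ ∧ k ≤ μ.length ∧ Big w D μ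
    · exact hex
    refine ⟨τ, List.prefix_rfl, hk, .node S hS fun i hi => ?_⟩
    obtain ⟨μ, h1, h2, h3⟩ := ih i hi (by rw [List.length_append]; omega)
      (fun j hj => hw j (by rw [List.length_append] at hj; omega))
    rcases List.prefix_concat_iff.1 (by simpa using h1) with h4 | h4
    · rw [h4] at h3; simpa using h3
    · exact absurd ⟨μ, h4, h2, h3⟩ hex

/-- a finite certificate for bigness -/
theorem big_iff {w : ℕ → ℕ} {C : List ℕ → Prop} {τ : List ℕ} :
    Big w C τ ↔ ∃ L : List (List ℕ), τ ∈ L ∧ ∀ ρ ∈ L, C ρ ∨ ∃ S : List ℕ, S.Nodup ∧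
      w ρ.length ≤ S.length ∧ ∀ i ∈ S, ρ ++ [i] ∈ L := by
  classical
  constructor
  · intro h
    induction h with
    | @leaf τ h =>
      refine ⟨[τ], by simp, fun ρ hρ => Or.inl ?_⟩
      rw [List.mem_singleton] at hρ
      rwa [hρ]
    | @node τ S hS h ih =>
      have key : ∀ i, ∃ L : List (List ℕ), i ∈ S → τ ++ [i] ∈ L ∧ ∀ ρ ∈ L, C ρ ∨ ∃ S : List ℕ,
          S.Nodup ∧ w ρ.length ≤ S.length ∧ ∀ i ∈ S, ρ ++ [i] ∈ L := by
        intro i
        by_cases hi : i ∈ S
        · obtain ⟨L, hL⟩ := ih i hi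
          exact ⟨L, fun _ => hL⟩
        · exact ⟨[], fun h => absurd h hi⟩
      choose f hf using key
      refine ⟨τ :: S.toList.flatMap f, by simp, ?_⟩
      intro ρ hρ
      rw [List.mem_cons] at hρ
      rcases hρ with rfl | hρ
      · refine Or.inr ⟨S.toList, S.nodup_toList, by simpa using hS, fun i hi => ?_⟩
        rw [List.mem_cons]
        right
        rw [List.mem_flatMap]
        exact ⟨i, hi, (hf i (by simpa using hi)).1⟩
      · rw [List.mem_flatMap] at hρ
        obtain ⟨i, hi, hρ⟩ := hρ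
        rcases (hf i (by simpa using hi)).2 ρ hρ with h1 | ⟨S', h1, h2, h3⟩
        · exact Or.inl h1
        · refine Or.inr ⟨S', h1, h2, fun j hj => ?_⟩
          rw [List.mem_cons]
          right
          rw [List.mem_flatMap]
          exact ⟨i, hi, h3 j hj⟩
  · rintro ⟨L, hτ, hL⟩
    obtain ⟨M, hM⟩ : ∃ M, ∀ ρ ∈ L, ρ.length ≤ M :=
      ⟨(L.map List.length).sum, fun ρ hρ => List.single_le_sum (by simp) _
        (List.mem_map_of_mem hρ)⟩
    have key : ∀ n, ∀ ρ ∈ L, M - ρ.length < n → Big w C ρ := by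
      intro n
      induction n with
      | zero => intro ρ _ h; omega
      | succ n ih =>
        intro ρ hρ hn
        rcases hL ρ hρ with h1 | ⟨S, h1, h2, h3⟩
        · exact .leaf h1
        · refine .node S.toFinset (by rw [List.toFinset_card_of_nodup h1]; exact h2) ?_
          intro i hi
          rw [List.mem_toFinset] at hi
          have h4 := h3 i hi
          have h5 := hM _ h4
          refine ih _ h4 ?_
          rw [List.length_append] at h5 ⊢
          simp only [List.length_cons, List.length_nil] at h5 ⊢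
          omega
    exact key _ τ hτ (Nat.lt_succ_self _)

section re

variable {α : Type*} [Primcodable α]

theorem re_nodup {f : α → List ℕ} (hf : Computable f) : REPred fun a => (f a).Nodup := by
  have h : REPred fun a => ∀ j < (f a).length, ∀ i < j, (f a)[i]? ≠ (f a)[j]? := by
    refine RE.all_lt (p := fun a j => ∀ i < j, (f a)[i]? ≠ (f a)[j]?) ?_
      (Computable.list_length.comp hf)
    refine RE.all_lt (p := fun (x : α × ℕ) i => (f x.1)[i]? ≠ (f x.1)[x.2]?) ?_ Computable.snd
    refine RE.ne ?_ ?_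
    · exact Computable.list_getElem?.comp (hf.comp (Computable.fst.comp Computable.fst))
        Computable.snd
    · exact Computable.list_getElem?.comp (hf.comp (Computable.fst.comp Computable.fst))
        (Computable.snd.comp Computable.fst)
  refine h.of_eq fun a => ?_
  rw [List.nodup_iff_getElem?_ne_getElem?]
  exact ⟨fun h i j hij hj => h j hj i hij, fun h j hj i hij => h i j hij hj⟩

theorem computable_snoc {f : α → List ℕ} {g : α → ℕ} (hf : Computable f) (hg : Computable g) :
    Computable fun a => f a ++ [g a] :=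
  Computable.list_append.comp hf (Computable.list_cons.comp hg (Computable.const []))

theorem re_big {w : α → ℕ → ℕ} (hw : Computable₂ w) {C : α → List ℕ → Prop}
    (hC : REPred fun x : α × List ℕ => C x.1 x.2) {f : α → List ℕ} (hf : Computable f) :
    REPred fun a => Big (w a) (C a) (f a) := by
  have h : REPred fun a => ∃ L : List (List ℕ), f a ∈ L ∧ ∀ ρ ∈ L, C a ρ ∨ ∃ S : List ℕ,
      S.Nodup ∧ w a ρ.length ≤ S.length ∧ ∀ i ∈ S, ρ ++ [i] ∈ L := by
    refine RE.ex (p := fun a (L : List (List ℕ)) => f a ∈ L ∧ ∀ ρ ∈ L, C a ρ ∨ ∃ S : List ℕ,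
      S.Nodup ∧ w a ρ.length ≤ S.length ∧ ∀ i ∈ S, ρ ++ [i] ∈ L) ?_
    refine RE.and (RE.mem_list (hf.comp Computable.fst) Computable.snd) ?_
    refine RE.all_mem (p := fun (x : α × List (List ℕ)) (ρ : List ℕ) => C x.1 ρ ∨ ∃ S : List ℕ,
      S.Nodup ∧ w x.1 ρ.length ≤ S.length ∧ ∀ i ∈ S, ρ ++ [i] ∈ x.2) ?_ Computable.snd
    refine RE.or ?_ ?_
    · exact RE.comp hC ((Computable.fst.comp Computable.fst).pair Computable.snd)
    · refine RE.ex (p := fun (x : (α × List (List ℕ)) × List ℕ) (S : List ℕ) =>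
        S.Nodup ∧ w x.1.1 x.2.length ≤ S.length ∧ ∀ i ∈ S, x.2 ++ [i] ∈ x.1.2) ?_
      refine RE.and (re_nodup Computable.snd) (RE.and ?_ ?_)
      · refine RE.le ?_ (Computable.list_length.comp Computable.snd)
        exact hw.comp (Computable.fst.comp (Computable.fst.comp Computable.fst))
          (Computable.list_length.comp (Computable.snd.comp Computable.fst))
      · refine RE.all_mem (p := fun (x : ((α × List (List ℕ)) × List ℕ) × List ℕ) (i : ℕ) =>
          x.1.2 ++ [i] ∈ x.1.1.2) ?_ Computable.snd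
        refine RE.mem_list ?_ ?_
        · exact computable_snoc (Computable.snd.comp (Computable.fst.comp Computable.fst))
            Computable.snd
        · exact Computable.snd.comp (Computable.fst.comp (Computable.fst.comp Computable.fst))
  exact h.of_eq fun a => big_iff.symm

end re

end Pool.Agent.Zk92.Bushy
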