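import Pool.Agent.Zk92.Bushy.Step3

/-!
The generic path.
-/

set_option autoImplicit false

namespace Pool.Agent.Zk92.Bushy

open Pool.Agent.Helper446 Nat.Partrec

/-- the initial tree -/
def T00 (c N : ℕ → ℕ) (τ : List ℕ) : Prop := ∀ j a, τ[j]? = some a → a < ss c N j

/-- the initial bad set: at the level `j`, the values on the block `j` of the first `j` partial
computable functions are avoided -/
def U00 (c : ℕ → ℕ) (τ : List ℕ) : Prop :=
  ∃ j e m a : ℕ, e < j ∧ c j ≤ m ∧ m < c (j + 1) ∧ τ[j]? = some a ∧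
    a ∈ (Denumerable.ofNat Code e).eval m

theorem re_T00 {c N : ℕ → ℕ} (hc : Computable c) (hN : Computable N) : REPred (T00 c N) := by
  have h : REPred fun τ : List ℕ => ∀ j < τ.length, τ.getD j 0 < ss c N j :=
    RE.all_lt (p := fun (τ : List ℕ) j => τ.getD j 0 < ss c N j)
      (RE.lt (computable_getD Computable.fst Computable.snd)
        ((computable_ss hc hN).comp Computable.snd)) Computable.list_length
  refine h.of_eq fun τ => ?_
  constructor
  · intro h j a ha
    have hj : j < τ.length := (List.getElem?_eq_some_iff.1 ha).1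
    have := h j hj
    rwa [List.getD_eq_getElem?_getD, ha] at this
  · intro h j hj
    rw [List.getD_eq_getElem?_getD, List.getElem?_eq_getElem hj]
    exact h j _ (List.getElem?_eq_getElem hj)

theorem re_U00 {c : ℕ → ℕ} (hc : Computable c) : REPred (U00 c) := by
  unfold U00
  refine RE.ex (p := fun (τ : List ℕ) j => ∃ e m a : ℕ, e < j ∧ c j ≤ m ∧ m < c (j + 1) ∧
    τ[j]? = some a ∧ a ∈ (Denumerable.ofNat Code e).eval m) ?_
  refine RE.ex (p := fun (x : List ℕ × ℕ) e => ∃ m a : ℕ, e < x.2 ∧ c x.2 ≤ m ∧ m < c (x.2 + 1) ∧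
    x.1[x.2]? = some a ∧ a ∈ (Denumerable.ofNat Code e).eval m) ?_
  refine RE.ex (p := fun (x : (List ℕ × ℕ) × ℕ) m => ∃ a : ℕ, x.2 < x.1.2 ∧ c x.1.2 ≤ m ∧
    m < c (x.1.2 + 1) ∧ x.1.1[x.1.2]? = some a ∧ a ∈ (Denumerable.ofNat Code x.2).eval m) ?_
  refine RE.ex (p := fun (x : ((List ℕ × ℕ) × ℕ) × ℕ) a => x.1.2 < x.1.1.2 ∧ c x.1.1.2 ≤ x.2 ∧
    x.2 < c (x.1.1.2 + 1) ∧ x.1.1.1[x.1.1.2]? = some a ∧
      a ∈ (Denumerable.ofNat Code x.1.2).eval x.2) ?_
  have e1 : Computable fun x : (((List ℕ × ℕ) × ℕ) × ℕ) × ℕ => x.1.1.1.2 :=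
    Computable.snd.comp (Computable.fst.comp (Computable.fst.comp Computable.fst))
  have e2 : Computable fun x : (((List ℕ × ℕ) × ℕ) × ℕ) × ℕ => x.1.1.2 :=
    Computable.snd.comp (Computable.fst.comp Computable.fst)
  have e3 : Computable fun x : (((List ℕ × ℕ) × ℕ) × ℕ) × ℕ => x.1.2 :=
    Computable.snd.comp Computable.fst
  have e4 : Computable fun x : (((List ℕ × ℕ) × ℕ) × ℕ) × ℕ => x.1.1.1.1 :=
    Computable.fst.comp (Computable.fst.comp (Computable.fst.comp Computable.fst))
  refine RE.and (RE.lt e2 e1) (RE.and (RE.le (hc.comp e1) e3) (RE.and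
    (RE.lt e3 (hc.comp (Computable.succ.comp e1))) (RE.and (RE.eq
      (Computable.list_getElem?.comp e4 e1) (Computable.option_some.comp Computable.snd)) ?_)))
  have h : REPred fun x : (Code × ℕ) × ℕ => x.2 ∈ x.1.1.eval x.1.2 := re_graph Code.eval_part
  exact RE.comp h (Computable.pair (Computable.pair ((Computable.ofNat Code).comp e2) e3)
    Computable.snd)

theorem closed00 {c : ℕ → ℕ} (hcm : StrictMono c) (hcp : ∀ k, 0 < c k) {C : List ℕ → Prop}
    (hC : ∀ τ, C τ → U00 c τ) {τ : List ℕ} (h : Big (LL c) C τ) : U00 c τ := by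
  classical
  induction h with
  | leaf h => exact hC _ h
  | @node τ S hS _ ih =>
    by_contra hcon
    -- the new bad values
    have h1 : ∀ a ∈ S, ∃ e m, e < τ.length ∧ c τ.length ≤ m ∧ m < c (τ.length + 1) ∧
        a ∈ (Denumerable.ofNat Code e).eval m := by
      intro a ha
      obtain ⟨j, e, m, b, h2, h3, h4, h5, h6⟩ := ih a ha
      rcases Nat.lt_trichotomy j τ.length with h7 | h7 | h7
      · exfalso
        rw [List.getElem?_append_left h7] at h5
        exact hcon ⟨j, e, m, b, h2, h3, h4, h5, h6⟩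
      · subst h7
        simp only [List.getElem?_append_right (le_refl _), Nat.sub_self] at h5
        have h8 : a = b := by simpa using h5
        subst h8
        exact ⟨e, m, h2, h3, h4, h6⟩
      · exfalso
        rw [List.getElem?_eq_none (by rw [List.length_append]; simp; omega)] at h5
        cases h5
    let g : ℕ × ℕ → ℕ := fun x =>
      if h : ((Denumerable.ofNat Code x.1).eval x.2).Dom then
        ((Denumerable.ofNat Code x.1).eval x.2).get h else 0
    have h2 : S ⊆ (Finset.range τ.length ×ˢ Finset.Ico (c τ.length) (c (τ.length + 1))).image g := by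
      intro a ha
      obtain ⟨e, m, h3, h4, h5, h6⟩ := h1 a ha
      rw [Finset.mem_image]
      refine ⟨(e, m), ?_, ?_⟩
      · simp only [Finset.mem_product, Finset.mem_range, Finset.mem_Ico]
        exact ⟨h3, h4, h5⟩
      · have hd : ((Denumerable.ofNat Code e).eval m).Dom := Part.dom_iff_mem.2 ⟨a, h6⟩
        show (if h : ((Denumerable.ofNat Code e).eval m).Dom then
          ((Denumerable.ofNat Code e).eval m).get h else 0) = a
        rw [dif_pos hd]
        exact Part.get_eq_of_mem h6 hd
    have h3 := (Finset.card_le_card h2).trans Finset.card_image_le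
    rw [Finset.card_product, Finset.card_range, Nat.card_Ico] at h3
    have h4 : LL c τ.length ≤ τ.length * (c (τ.length + 1) - c τ.length) := hS.trans h3
    have h5 : τ.length * (c (τ.length + 1) - c τ.length) ≤ τ.length * c (τ.length + 1) :=
      Nat.mul_le_mul_left _ (Nat.sub_le _ _)
    have h6 := hcp (τ.length + 1)
    unfold LL at h4
    have h7 : (τ.length + 1) * c (τ.length + 1) = τ.length * c (τ.length + 1) + c (τ.length + 1) := by
      ring
    omega

/-- the initial condition -/
def Cd0 {c N : ℕ → ℕ} (hc : Computable c) (hN : Computable N) (hcm : StrictMono c)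
    (hcp : ∀ k, 0 < c k) : Cd c N where
  i := 0
  B := 0
  σ := []
  T := T00 c N
  U := U00 c
  len := le_rfl
  reT := re_T00 hc hN
  reU := re_U00 hc
  T0 := fun j a h => by simp at h
  U0 := by
    rintro ⟨j, e, m, a, -, -, -, h, -⟩
    simp at h
  above := fun τ _ => List.nil_prefix
  pre := fun τ a _ h j b hb => h j b (by
    rw [List.getElem?_append_left (List.getElem?_eq_some_iff.1 hb).1]; exact hb)
  bdd := fun τ h => h
  up := by
    rintro τ a - ⟨j, e, m, b, h1, h2, h3, h4, h5⟩ -
    refine ⟨j, e, m, b, h1, h2, h3, ?_, h5⟩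
    rw [List.getElem?_append_left (List.getElem?_eq_some_iff.1 h4).1]; exact h4
  bush := by
    intro τ h _
    refine ⟨Finset.range (ss c N τ.length), ?_, ?_⟩
    · rw [Finset.card_range]
      unfold tt ss
      simp
    · intro a ha j b hb
      rw [Finset.mem_range] at ha
      rcases Nat.lt_trichotomy j τ.length with h7 | h7 | h7
      · rw [List.getElem?_append_left h7] at hb
        exact h j b hb
      · subst h7
        simp only [List.getElem?_append_right (le_refl _), Nat.sub_self] at hb
        have h8 : a = b := by simpa using hb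
        rwa [← h8]
      · exfalso
        rw [List.getElem?_eq_none (by rw [List.length_append]; simp; omega)] at hb
        cases hb
  closed := by
    intro τ _ h
    refine closed00 hcm hcp (C := fun ρ => T00 c N ρ ∧ U00 c ρ) (fun _ h => h.2)
      (h.mono (fun j _ => ?_) fun _ _ h => h)
    unfold vv
    simp

theorem countable_fnl : Countable {φ : List ℕ → ℕ → Option ℕ // Fnl φ} := by
  have h : ∀ φ : {φ : List ℕ → ℕ → Option ℕ // Fnl φ}, ∃ c : Code, ∀ τ n,
      c.eval (Encodable.encode (τ, n)) = Part.some (Encodable.encode (φ.1 τ n)) := by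
    rintro ⟨φ, hφ⟩
    obtain ⟨c, hc⟩ := Code.exists_code.1 hφ.comp
    refine ⟨c, fun τ n => ?_⟩
    rw [hc]
    simp
  choose g hg using h
  refine Function.Injective.countable (f := g) ?_
  intro φ ψ hgg
  apply Subtype.ext
  funext τ n
  have h1 := hg φ τ n
  rw [hgg, hg ψ τ n] at h1
  exact (Encodable.encode_injective (Part.some_injective h1)).symm

/-- the generic path -/
theorem exists_path {c N : ℕ → ℕ} (hc : Computable c) (hN : Computable N) (hcm : StrictMono c)
    (hNm : Monotone N) (hc0 : 0 < c 0)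
    (hodd : ∀ j, j % 2 = 1 → N j + PP (ss c N) (j + 1) ≤ N (j + 1)) :
    ∃ f : ℕ → ℕ, (∀ m, T00 c N (pref f m) ∧ ¬ U00 c (pref f m)) ∧
      ∀ φ, Fnl φ → ∀ z : ℕ → ℕ, (∀ n, z n < 2 ^ 2 ^ n) →
        (∀ n, ∃ m, φ (pref f m) n = some (z n)) →
        ∃ x : ℕ → ℕ, Computable x ∧ ∀ M, ∃ n, M ≤ n ∧ x n = z n := by
  have hcp : ∀ k, 0 < c k := fun k => hc0.trans_le (hcm.monotone (Nat.zero_le k))
  haveI := countable_fnl
  haveI : Nonempty {φ : List ℕ → ℕ → Option ℕ // Fnl φ} :=
    ⟨⟨fun _ _ => none, Computable.const _, fun _ _ _ _ _ h => h⟩⟩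
  obtain ⟨enum, henum⟩ := exists_surjective_nat {φ : List ℕ → ℕ → Option ℕ // Fnl φ}
  choose nxtc h1 h2 h3 using fun (p : Cd c N) (φ : {φ : List ℕ → ℕ → Option ℕ // Fnl φ}) =>
    step hcp hc hN hNm hodd p φ.2
  let p : ℕ → Cd c N := fun n => Nat.rec (Cd0 hc hN hcm hcp) (fun n q => nxtc q (enum n)) n
  have hp0 : p 0 = Cd0 hc hN hcm hcp := rfl
  have hps : ∀ n, p (n + 1) = nxtc (p n) (enum n) := fun n => rfl
  have hle1 : ∀ n, (p (n + 1)).Le (p n) := fun n => by rw [hps]; exact h1 _ _
  have hle : ∀ n m, n ≤ m → (p m).Le (p n) := by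
    intro n m hnm
    induction m, hnm using Nat.le_induction with
    | base => exact Cd.Le.refl _
    | succ m _ ih => exact (hle1 m).trans ih
  have hlen : ∀ n, n ≤ (p n).σ.length := by
    intro n
    induction n with
    | zero => exact Nat.zero_le _
    | succ n ih =>
      have := h2 (p n) (enum n)
      rw [← hps] at this
      omega
  let f : ℕ → ℕ := fun i => (p (i + 1)).σ.getD i 0
  have hf : ∀ n i, i < (p n).σ.length → (p n).σ[i]? = some (f i) := by
    intro n i hi
    have h4 : i < (p (i + 1)).σ.length := hlen (i + 1)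
    have h5 : (p (i + 1)).σ[i]? = some (f i) := by
      show _ = some ((p (i + 1)).σ.getD i 0)
      rw [List.getD_eq_getElem?_getD, List.getElem?_eq_getElem h4]
      rfl
    rw [← h5]
    rcases le_total n (i + 1) with h6 | h6
    · obtain ⟨t, ht⟩ := (hle _ _ h6).stem
      rw [← ht, List.getElem?_append_left hi]
    · obtain ⟨t, ht⟩ := (hle _ _ h6).stem
      rw [← ht, List.getElem?_append_left h4]
  have hpref : ∀ n m, m ≤ (p n).σ.length → pref f m <+: (p n).σ := by
    intro n m hm
    rw [List.prefix_iff_eq_take, pref_length]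
    apply List.ext_getElem?
    intro i
    by_cases hi : i < m
    · rw [pref_getElem? f hi, List.getElem?_take_of_lt hi, hf n i (by omega)]
    · rw [List.getElem?_eq_none (by rw [pref_length]; omega), List.getElem?_eq_none
        (by rw [List.length_take]; omega)]
  have hkey : ∀ n m, (p n).σ.length ≤ m → (p n).T (pref f m) ∧ ¬ (p n).U (pref f m) := by
    intro n m hm
    have h4 : m ≤ (p (max n m)).σ.length := (le_max_right n m).trans (hlen _)
    have h5 := hpref _ _ h4
    have h6 := hle n (max n m) (le_max_left _ _)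
    have h7 : (p n).σ <+: pref f m := by
      have h8 := List.prefix_of_prefix_length_le (hpref (max n m) m h4) h6.stem
      exact List.prefix_of_prefix_length_le h6.stem h5 (by rw [pref_length]; exact hm)
    have h8 : (p n).T (p (max n m)).σ := h6.tree _ (p (max n m)).T0
    have h9 : (p n).T (pref f m) := (p n).pre' h7 h5 h8
    exact ⟨h9, fun hU => (p (max n m)).U0 (h6.bad _ (p (max n m)).T0 ((p n).up' h9 hU h5 h8))⟩
  refine ⟨f, fun m => ?_, fun φ hφ z hz hφz => ?_⟩
  · have := hkey 0 m (by rw [hp0]; exact Nat.zero_le _)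
    rw [hp0] at this
    exact this
  · obtain ⟨n, hn⟩ := henum ⟨φ, hφ⟩
    have h4 := h3 (p n) (enum n)
    rw [← hps, hn] at h4
    exact h4 f (hkey (n + 1)) z hz hφz

end Pool.Agent.Zk92.Bushy
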