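import Pool.Agent.Helper446.Comp

/-!
The parameters: block boundaries on the two sides.
-/

set_option autoImplicit false

namespace Pool.Agent.Zk92.Bushy

open Pool.Agent.Helper446 Nat

/-- the exponent which bounds the loss at level `j` -/
def ee (N : ℕ → ℕ) (j : ℕ) : ℕ := 2 ^ (N j + 1)

/-- the least bushiness at level `j` -/
def LL (c : ℕ → ℕ) (j : ℕ) : ℕ := (j + 1) * c (j + 1)

/-- the number of values at level `j` -/
def ss (c N : ℕ → ℕ) (j : ℕ) : ℕ := LL c j * 2 ^ (ee N j * 4 ^ j)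

theorem fac_prim : Primrec Nat.factorial := by
  have h : Primrec (fun n : ℕ => Nat.rec (motive := fun _ => ℕ) 1 (fun n ih => (n + 1) * ih) n) :=
    Primrec.nat_rec₁ 1 (f := fun n ih => (n + 1) * ih)
      (Primrec.nat_mul.comp (Primrec.succ.comp Primrec.fst) Primrec.snd)
  refine h.of_eq ?_
  intro n
  induction n with
  | zero => rfl
  | succ n ih =>
    change (n + 1) * (Nat.rec (motive := fun _ => ℕ) 1 (fun n ih => (n + 1) * ih) n) = _
    rw [ih]; rfl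

theorem pow_prim : Primrec₂ fun a b : ℕ => a ^ b :=
  Primrec₂.unpaired'.1 Nat.Primrec.pow

@[fun_prop] theorem cpow {α : Type*} [Primcodable α] {f g : α → ℕ} (hf : Computable f)
    (hg : Computable g) : Computable fun x => f x ^ g x :=
  pow_prim.to_comp.comp hf hg

@[fun_prop] theorem cfac {α : Type*} [Primcodable α] {f : α → ℕ} (hf : Computable f) :
    Computable fun x => (f x)! :=
  fac_prim.to_comp.comp hf

/-- one step of the recursion which defines the parameters; a state is `(b, ν, Π)` -/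
def F0 (k : ℕ) (x : ℕ × ℕ × ℕ) : ℕ :=
  x.2.2 * ((2 * k + 1) * x.1! * 2 ^ 2 ^ (x.2.1 + 4 * k + 1)) * (2 * k + 2) *
    2 ^ 2 ^ (x.2.1 + 4 * k + 3)

def D0 (k : ℕ) (x : ℕ × ℕ × ℕ) : ℕ := 2 * F0 k x + 2 * x.2.1 + 8 * k + 14

def nx (k : ℕ) (x : ℕ × ℕ × ℕ) : ℕ × ℕ × ℕ :=
  (2 ^ D0 k x, x.2.1 + F0 k x * 2 ^ D0 k x, F0 k x * 2 ^ D0 k x)

def stt : ℕ → ℕ × ℕ × ℕ
  | 0 => (9, 0, 1)
  | k + 1 => nx k (stt k)

theorem computable_nx : Computable fun x : ℕ × (ℕ × ℕ × ℕ) => nx x.1 x.2 := by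
  unfold nx D0 F0
  fun_prop

theorem computable_stt : Computable stt := by
  have h := Computable.nat_rec (f := fun n : ℕ => n) (g := fun _ : ℕ => ((9, 0, 1) : ℕ × ℕ × ℕ))
    (h := fun _ p => nx p.1 p.2) Computable.id (Computable.const _)
    (computable_nx.comp Computable.snd)
  refine h.of_eq fun n => ?_
  induction n with
  | zero => rfl
  | succ n ih =>
    show nx n _ = nx n (stt n)
    rw [← ih]

/-- the invariant -/
structure Inv (k : ℕ) (x : ℕ × ℕ × ℕ) : Prop where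
  h1 : (2 * k + 1) * x.1! * 2 ^ 2 ^ (x.2.1 + 4 * k + 1) ≤ 2 ^ x.1!
  h2 : x.2.2 ≤ 2 ^ x.2.1
  h3 : 9 ≤ x.1
  h4 : 0 < x.2.2

/-- growth of the factorial -/
theorem pow_le_fac (m : ℕ) : (m + 1) ^ m ≤ (2 * m)! := by
  have h := Nat.factorial_mul_pow_le_factorial (m := m) (n := m)
  calc (m + 1) ^ m = 1 * (m + 1) ^ m := (one_mul _).symm
    _ ≤ m ! * (m + 1) ^ m := Nat.mul_le_mul_right _ (Nat.succ_le_of_lt (Nat.factorial_pos m))
    _ ≤ (m + m)! := h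
    _ = (2 * m)! := by rw [two_mul]

theorem two_pow_le_fac (d : ℕ) : 2 ^ (d * 2 ^ d) ≤ (2 ^ (d + 1))! := by
  calc 2 ^ (d * 2 ^ d) = (2 ^ d) ^ 2 ^ d := by rw [← pow_mul]
    _ ≤ (2 ^ d + 1) ^ 2 ^ d := Nat.pow_le_pow_left (Nat.le_succ _) _
    _ ≤ (2 * 2 ^ d)! := pow_le_fac _
    _ = (2 ^ (d + 1))! := by rw [pow_succ, mul_comm]

theorem fac_big {b : ℕ} (hb : 9 ≤ b) : 2 ^ (8 * b !) ≤ (b !)! := by
  obtain ⟨m, hm⟩ : ∃ m, b ! = 2 * m := by
    obtain ⟨m, hm⟩ := Nat.dvd_factorial (by norm_num : 0 < 2) (by omega : 2 ≤ b)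
    exact ⟨m, hm⟩
  have h9 : 131072 ≤ b ! := (by decide : 131072 ≤ 9!).trans (Nat.factorial_le hb)
  have h1 : 2 ^ 16 ≤ m + 1 := by norm_num; omega
  calc 2 ^ (8 * b !) = (2 ^ 16) ^ m := by rw [hm, ← pow_mul]; congr 1; ring
    _ ≤ (m + 1) ^ m := Nat.pow_le_pow_left h1 _
    _ ≤ (2 * m)! := pow_le_fac m
    _ = (b !)! := by rw [hm]

section inv

variable {k : ℕ} {x : ℕ × ℕ × ℕ}

theorem Inv.Q_le (h : Inv k x) : 2 ^ (x.2.1 + 4 * k + 1) ≤ x.1! := by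
  have h1 : 2 ^ 2 ^ (x.2.1 + 4 * k + 1) ≤ 2 ^ x.1! := by
    refine le_trans ?_ h.h1
    have : 0 < (2 * k + 1) * x.1! := Nat.mul_pos (by omega) (Nat.factorial_pos _)
    exact Nat.le_mul_of_pos_left _ this
  exact (Nat.pow_le_pow_iff_right (by norm_num)).1 h1

theorem Inv.nu_le (h : Inv k x) : x.2.1 + 4 * k + 2 ≤ x.1! := by
  have h1 := h.Q_le
  have h2 : x.2.1 + 4 * k + 1 < 2 ^ (x.2.1 + 4 * k + 1) := Nat.lt_two_pow_self
  omega

theorem Inv.F_pos (h : Inv k x) : 0 < F0 k x := by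
  unfold F0
  have := h.h4
  have := Nat.factorial_pos x.1
  positivity

theorem Inv.F_le (h : Inv k x) : F0 k x ≤ 2 ^ (7 * x.1!) := by
  have h1 := h.Q_le
  have h2 := h.nu_le
  have h3 : x.2.2 ≤ 2 ^ x.1! := h.h2.trans (Nat.pow_le_pow_right (by norm_num) (by omega))
  have h4 : 2 * k + 2 ≤ 2 ^ x.1! := by
    have : x.1! < 2 ^ x.1! := Nat.lt_two_pow_self
    omega
  have h5 : 2 ^ 2 ^ (x.2.1 + 4 * k + 3) ≤ 2 ^ (4 * x.1!) := by
    refine Nat.pow_le_pow_right (by norm_num) ?_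
    have : 2 ^ (x.2.1 + 4 * k + 3) = 4 * 2 ^ (x.2.1 + 4 * k + 1) := by
      rw [show x.2.1 + 4 * k + 3 = (x.2.1 + 4 * k + 1) + 2 by ring, pow_add]; ring
    omega
  unfold F0
  calc x.2.2 * ((2 * k + 1) * x.1! * 2 ^ 2 ^ (x.2.1 + 4 * k + 1)) * (2 * k + 2) *
        2 ^ 2 ^ (x.2.1 + 4 * k + 3)
      ≤ 2 ^ x.1! * 2 ^ x.1! * 2 ^ x.1! * 2 ^ (4 * x.1!) :=
        Nat.mul_le_mul (Nat.mul_le_mul (Nat.mul_le_mul h3 h.h1) h4) h5
    _ = 2 ^ (7 * x.1!) := by rw [← pow_add, ← pow_add, ← pow_add]; congr 1; ring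

theorem Inv.next_le (h : Inv k x) : F0 k x * 2 ^ D0 k x ≤ 2 ^ (x.1!)! := by
  have h1 := h.F_le
  have h2 := h.nu_le
  have h3 := fac_big h.h3
  have h9 : 9 ≤ x.1! := h.h3.trans (Nat.self_le_factorial _)
  generalize x.1! = X at *
  have h4 : D0 k x ≤ 2 * 2 ^ (7 * X) + 2 * X + 14 := by
    unfold D0; omega
  have h5 : 9 * X + 14 ≤ 2 ^ (7 * X) := by
    calc 9 * X + 14 ≤ 2 ^ 4 * X := by norm_num; omega
      _ ≤ 2 ^ 4 * 2 ^ X := Nat.mul_le_mul_left _ Nat.lt_two_pow_self.le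
      _ = 2 ^ (4 + X) := by rw [pow_add]
      _ ≤ 2 ^ (7 * X) := Nat.pow_le_pow_right (by norm_num) (by omega)
  have h6 : 3 * 2 ^ (7 * X) ≤ 2 ^ (8 * X) := by
    calc 3 * 2 ^ (7 * X) ≤ 2 ^ X * 2 ^ (7 * X) := by
          refine Nat.mul_le_mul_right _ ?_
          calc 3 ≤ 2 ^ 2 := by norm_num
            _ ≤ 2 ^ X := Nat.pow_le_pow_right (by norm_num) (by omega)
      _ = 2 ^ (8 * X) := by rw [← pow_add]; congr 1; ring
  calc F0 k x * 2 ^ D0 k x ≤ 2 ^ (7 * X) * 2 ^ D0 k x := Nat.mul_le_mul_right _ h1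
    _ = 2 ^ (7 * X + D0 k x) := by rw [← pow_add]
    _ ≤ 2 ^ X ! := Nat.pow_le_pow_right (by norm_num) (by omega)

theorem Inv.next (h : Inv k x) : Inv (k + 1) (nx k x) := by
  have hF := h.F_pos
  obtain ⟨d, hd⟩ : ∃ d, D0 k x = d + 1 := ⟨2 * F0 k x + 2 * x.2.1 + 8 * k + 13, by unfold D0; ring⟩
  have hd' : d = 2 * F0 k x + 2 * x.2.1 + 8 * k + 13 := by unfold D0 at hd; omega
  have hY := two_pow_le_fac d
  have hP : 0 < 2 ^ d := by positivity
  refine ⟨?_, ?_, ?_, ?_⟩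
  · show (2 * (k + 1) + 1) * (2 ^ D0 k x)! * 2 ^ 2 ^ ((x.2.1 + F0 k x * 2 ^ D0 k x) +
      4 * (k + 1) + 1) ≤ 2 ^ (2 ^ D0 k x)!
    rw [hd]
    generalize (2 ^ (d + 1))! = Y at *
    generalize hν : x.2.1 + F0 k x * 2 ^ (d + 1) = ν'
    have h1 : ν' + 4 * k + 7 ≤ d * 2 ^ d := by
      rw [← hν]
      have h2 : d * 2 ^ d = F0 k x * 2 ^ (d + 1) + (2 * x.2.1 + 8 * k + 13) * 2 ^ d := by
        rw [pow_succ]
        nth_rw 1 [hd']
        ring
      have h3 : (2 * x.2.1 + 8 * k + 13) ≤ (2 * x.2.1 + 8 * k + 13) * 2 ^ d :=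
        Nat.le_mul_of_pos_right _ hP
      omega
    have h2 : 4 * 2 ^ (ν' + 4 * (k + 1) + 1) ≤ Y := by
      calc 4 * 2 ^ (ν' + 4 * (k + 1) + 1) = 2 ^ (ν' + 4 * k + 7) := by
            rw [show ν' + 4 * k + 7 = (ν' + 4 * (k + 1) + 1) + 2 by ring, pow_add]; ring
        _ ≤ 2 ^ (d * 2 ^ d) := Nat.pow_le_pow_right (by norm_num) h1
        _ ≤ Y := hY
    have h3 : 2 * (k + 1) + 1 ≤ 2 ^ (ν' + 4 * (k + 1) + 1) := by
      have : ν' + 4 * (k + 1) + 1 < 2 ^ (ν' + 4 * (k + 1) + 1) := Nat.lt_two_pow_self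
      omega
    generalize 2 ^ (ν' + 4 * (k + 1) + 1) = Q at *
    have h4 : 2 * (k + 1) + 1 ≤ 2 ^ Q := h3.trans Nat.lt_two_pow_self.le
    obtain ⟨Z, hZ⟩ : ∃ Z, Y = Z + 2 * Q := ⟨Y - 2 * Q, by omega⟩
    have h5 : Y ≤ 2 ^ Z := by
      have h6 : Y ≤ 2 * Z := by omega
      have h7 : 0 < Z := by omega
      obtain ⟨z, rfl⟩ : ∃ z, Z = z + 1 := ⟨Z - 1, by omega⟩
      have h8 : z < 2 ^ z := Nat.lt_two_pow_self
      rw [pow_succ]
      omega
    calc (2 * (k + 1) + 1) * Y * 2 ^ Q ≤ 2 ^ Q * 2 ^ Z * 2 ^ Q :=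
          Nat.mul_le_mul_right _ (Nat.mul_le_mul h4 h5)
      _ = 2 ^ (Z + 2 * Q) := by rw [← pow_add, ← pow_add]; congr 1; ring
      _ = 2 ^ Y := by rw [← hZ]
  · show F0 k x * 2 ^ D0 k x ≤ 2 ^ (x.2.1 + F0 k x * 2 ^ D0 k x)
    exact Nat.lt_two_pow_self.le.trans (Nat.pow_le_pow_right (by norm_num) (by omega))
  · show 9 ≤ 2 ^ D0 k x
    calc 9 ≤ 2 ^ 4 := by norm_num
      _ ≤ 2 ^ D0 k x := Nat.pow_le_pow_right (by norm_num) (by unfold D0; omega)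
  · show 0 < F0 k x * 2 ^ D0 k x
    positivity

end inv

theorem inv_stt (k : ℕ) : Inv k (stt k) := by
  induction k with
  | zero =>
    refine ⟨?_, by norm_num [stt], le_rfl, by norm_num [stt]⟩
    show (2 * 0 + 1) * 9! * 2 ^ 2 ^ (0 + 4 * 0 + 1) ≤ 2 ^ 9!
    have h1 : (2 * 0 + 1) * 9! * 2 ^ 2 ^ (0 + 4 * 0 + 1) ≤ 2 ^ 21 := by decide
    have h2 : 21 ≤ 9! := by decide
    exact h1.trans (Nat.pow_le_pow_right (by norm_num) h2)
  | succ k ih => exact ih.next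

/-- boundaries on the side of the levels -/
def cc (j : ℕ) : ℕ := if j % 2 = 0 then (stt (j / 2)).1 else ((stt (j / 2)).1)!

/-- boundaries on the side of the arguments -/
def NN (j : ℕ) : ℕ := (stt (j / 2)).2.1

theorem cc_even (k : ℕ) : cc (2 * k) = (stt k).1 := by
  unfold cc
  rw [if_pos (by omega), show 2 * k / 2 = k by omega]

theorem cc_odd (k : ℕ) : cc (2 * k + 1) = ((stt k).1)! := by
  unfold cc
  rw [if_neg (by omega), show (2 * k + 1) / 2 = k by omega]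

theorem NN_even (k : ℕ) : NN (2 * k) = (stt k).2.1 := by
  unfold NN
  rw [show 2 * k / 2 = k by omega]

theorem NN_odd (k : ℕ) : NN (2 * k + 1) = (stt k).2.1 := by
  unfold NN
  rw [show (2 * k + 1) / 2 = k by omega]

theorem stt_succ (k : ℕ) : stt (k + 1) = nx k (stt k) := rfl

theorem stt_succ1 (k : ℕ) : (stt (k + 1)).1 = 2 ^ D0 k (stt k) := rfl

theorem stt_succ2 (k : ℕ) : (stt (k + 1)).2.1 = (stt k).2.1 + F0 k (stt k) * 2 ^ D0 k (stt k) :=
  rfl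

theorem stt_succ3 (k : ℕ) : (stt (k + 1)).2.2 = F0 k (stt k) * 2 ^ D0 k (stt k) := rfl

theorem ss_even (k : ℕ) : ss cc NN (2 * k) =
    (2 * k + 1) * (stt k).1! * 2 ^ 2 ^ ((stt k).2.1 + 4 * k + 1) := by
  unfold ss LL ee
  rw [cc_odd, NN_even]
  congr 2
  rw [show (4 : ℕ) = 2 ^ 2 by norm_num, ← pow_mul, ← pow_add]
  congr 1
  ring

theorem ss_odd (k : ℕ) : ss cc NN (2 * k + 1) =
    (2 * k + 2) * (stt (k + 1)).1 * 2 ^ 2 ^ ((stt k).2.1 + 4 * k + 3) := by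
  unfold ss LL ee
  rw [show 2 * k + 1 + 1 = 2 * (k + 1) by ring, cc_even, NN_odd]
  congr 2
  rw [show (4 : ℕ) = 2 ^ 2 by norm_num, ← pow_mul, ← pow_add]
  congr 1
  ring

theorem next_eq (k : ℕ) : F0 k (stt k) * 2 ^ D0 k (stt k) =
    (stt k).2.2 * ss cc NN (2 * k) * ss cc NN (2 * k + 1) := by
  rw [ss_even, ss_odd, stt_succ1]
  generalize D0 k (stt k) = D
  unfold F0
  ring

theorem ss_pos (j : ℕ) : 0 < ss cc NN j := by
  obtain ⟨k, rfl | rfl⟩ := Nat.even_or_odd' j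
  · rw [ss_even]
    have := Nat.factorial_pos (stt k).1
    positivity
  · rw [ss_odd]
    have := (inv_stt (k + 1)).h3
    have h : 0 < (stt (k + 1)).1 := by omega
    positivity

theorem ss_le (j : ℕ) : ss cc NN j ≤ 2 ^ (cc j)! := by
  obtain ⟨k, rfl | rfl⟩ := Nat.even_or_odd' j
  · rw [ss_even, cc_even]
    exact (inv_stt k).h1
  · rw [cc_odd]
    refine le_trans ?_ (inv_stt k).next_le
    rw [next_eq]
    exact Nat.le_mul_of_pos_left _ (Nat.mul_pos (inv_stt k).h4 (ss_pos _))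

theorem prod_ss (k : ℕ) : ∏ i ∈ Finset.range (2 * k), ss cc NN i = (stt k).2.2 := by
  induction k with
  | zero => rfl
  | succ k ih =>
    rw [show 2 * (k + 1) = 2 * k + 1 + 1 by ring, Finset.prod_range_succ, Finset.prod_range_succ,
      ih, stt_succ3, next_eq]

theorem NN_add (k : ℕ) : NN (2 * k + 1) + ∏ i ∈ Finset.range (2 * k + 2), ss cc NN i =
    NN (2 * k + 2) := by
  rw [show 2 * k + 2 = 2 * (k + 1) by ring, prod_ss, NN_odd, NN_even, stt_succ2, stt_succ3]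

theorem NN_mono : Monotone NN := by
  refine monotone_nat_of_le_succ fun j => ?_
  obtain ⟨k, rfl | rfl⟩ := Nat.even_or_odd' j
  · rw [NN_even, NN_odd]
  · rw [← NN_add]; exact Nat.le_add_right _ _

theorem cc_strictMono : StrictMono cc := by
  refine strictMono_nat_of_lt_succ fun j => ?_
  obtain ⟨k, rfl | rfl⟩ := Nat.even_or_odd' j
  · rw [cc_even, cc_odd]
    have := (inv_stt k).h3
    exact Nat.lt_factorial_self (by omega)
  · rw [cc_odd, show 2 * k + 1 + 1 = 2 * (k + 1) by ring, cc_even, stt_succ1]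
    have h1 : (stt k).1! ≤ F0 k (stt k) := by
      have h4 := (inv_stt k).h4
      unfold F0
      have e1 : 0 < (stt k).2.2 * (2 * k + 1) * 2 ^ 2 ^ ((stt k).2.1 + 4 * k + 1) *
        (2 * k + 2) * 2 ^ 2 ^ ((stt k).2.1 + 4 * k + 3) := by positivity
      calc (stt k).1! ≤ ((stt k).2.2 * (2 * k + 1) * 2 ^ 2 ^ ((stt k).2.1 + 4 * k + 1) *
            (2 * k + 2) * 2 ^ 2 ^ ((stt k).2.1 + 4 * k + 3)) * (stt k).1! :=
              Nat.le_mul_of_pos_left _ e1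
        _ = _ := by ring
    have h2 : F0 k (stt k) ≤ D0 k (stt k) := by unfold D0; omega
    have h3 : D0 k (stt k) < 2 ^ D0 k (stt k) := Nat.lt_two_pow_self
    omega

theorem cc_zero : cc 0 = 9 := rfl

theorem computable_cc : Computable cc := by
  have h1 : Computable fun j : ℕ => stt (j / 2) :=
    computable_stt.comp (Primrec.nat_div.to_comp.comp Computable.id (Computable.const 2))
  have h2 : ComputablePred fun j : ℕ => j % 2 = 0 :=
    RE.cp_eq (Primrec.nat_mod.to_comp.comp Computable.id (Computable.const 2))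
      (Computable.const 0)
  exact RE.cite h2 (by fun_prop) (by fun_prop)

theorem computable_NN : Computable NN := by
  have h1 : Computable fun j : ℕ => stt (j / 2) :=
    computable_stt.comp (Primrec.nat_div.to_comp.comp Computable.id (Computable.const 2))
  unfold NN
  fun_prop

/-- everything which is needed about the parameters -/
theorem exists_params : ∃ c N : ℕ → ℕ, Computable c ∧ Computable N ∧ StrictMono c ∧ Monotone N ∧
    0 < c 0 ∧ (∀ j, ss c N j ≤ 2 ^ (c j)!) ∧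
    ∀ j, j % 2 = 1 → N j + ∏ i ∈ Finset.range (j + 1), ss c N i ≤ N (j + 1) := by
  refine ⟨cc, NN, computable_cc, computable_NN, cc_strictMono, NN_mono, ?_, ss_le, ?_⟩
  · rw [cc_zero]; norm_num
  · intro j hj
    obtain ⟨k, rfl⟩ : ∃ k, j = 2 * k + 1 := ⟨j / 2, by omega⟩
    exact (NN_add k).le

end Pool.Agent.Zk92.Bushy
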