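import Pool.Agent.Zk92.Bushy.Step2

/-!
Decoding numbers to nodes (mixed radix), and locating a number in its block.
-/

set_option autoImplicit false

namespace Pool.Agent.Zk92.Bushy

open Pool.Agent.Helper446

/-- products of initial segments -/
def PP (s : ℕ → ℕ) (i : ℕ) : ℕ := ∏ k ∈ Finset.range i, s k

/-- the code of the initial segment of length `m` of `f` -/
def rr (s f : ℕ → ℕ) (m : ℕ) : ℕ := ∑ i ∈ Finset.range m, f i * PP s i

theorem PP_succ (s : ℕ → ℕ) (i : ℕ) : PP s (i + 1) = PP s i * s i := Finset.prod_range_succ _ _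

theorem rr_succ (s f : ℕ → ℕ) (m : ℕ) : rr s f (m + 1) = rr s f m + f m * PP s m :=
  Finset.sum_range_succ _ _

theorem rr_lt {s f : ℕ → ℕ} (h : ∀ i, f i < s i) (m : ℕ) : rr s f m < PP s m := by
  induction m with
  | zero => simp [rr, PP]
  | succ m ih =>
    rw [rr_succ, PP_succ]
    have h1 := h m
    calc rr s f m + f m * PP s m < PP s m + f m * PP s m := by omega
      _ = PP s m * (f m + 1) := by ring
      _ ≤ PP s m * s m := Nat.mul_le_mul_left _ h1

theorem PP_dvd (s : ℕ → ℕ) {i m : ℕ} (h : i < m) : PP s i * s i ∣ PP s m := by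
  induction m, h using Nat.le_induction with
  | base => rw [PP_succ]
  | succ m _ ih => rw [PP_succ]; exact ih.mul_right _

theorem rr_div {s f : ℕ → ℕ} (h : ∀ i, f i < s i) {i m : ℕ} (him : i < m) :
    (rr s f m / PP s i) % s i = f i := by
  have hP : ∀ j, 0 < PP s j := fun j => (Nat.zero_le _).trans_lt (rr_lt h j)
  induction m, him using Nat.le_induction with
  | base =>
    rw [rr_succ, Nat.add_mul_div_right _ _ (hP i), Nat.div_eq_of_lt (rr_lt h i), zero_add,
      Nat.mod_eq_of_lt (h i)]
  | succ m hm ih =>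
    obtain ⟨t, ht⟩ := PP_dvd s hm
    rw [rr_succ, ht, show f m * (PP s i * s i * t) = PP s i * (s i * (f m * t)) by ring,
      Nat.add_mul_div_left _ _ (hP i), Nat.add_mul_mod_self_left, ih]

/-- decoding -/
def dec (s : ℕ → ℕ) (r len : ℕ) : List ℕ := (List.range len).map fun i => (r / PP s i) % s i

theorem dec_rr {s f : ℕ → ℕ} (h : ∀ i, f i < s i) (m : ℕ) : dec s (rr s f m) m = pref f m := by
  unfold dec pref
  apply List.map_congr_left
  intro i hi
  exact rr_div h (List.mem_range.1 hi)

theorem computable_PP {s : ℕ → ℕ} (hs : Computable s) : Computable (PP s) := by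
  have h := Computable.nat_rec (f := fun n : ℕ => n) (g := fun _ : ℕ => 1)
    (h := fun _ p => p.2 * s p.1) Computable.id (Computable.const _)
    (Primrec.nat_mul.to_comp.comp (Computable.snd.comp Computable.snd)
      (hs.comp (Computable.fst.comp Computable.snd)))
  refine h.of_eq fun n => ?_
  induction n with
  | zero => rfl
  | succ n ih => rw [PP_succ, ← ih]

theorem computable_dec {s : ℕ → ℕ} (hs : Computable s) {α : Type*} [Primcodable α] {f g : α → ℕ}
    (hf : Computable f) (hg : Computable g) : Computable fun x => dec s (f x) (g x) := by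
  have h : Computable fun y : ℕ × ℕ => dec s y.1 y.2 := by
    apply RE.computable_of_graph
    have h1 : REPred fun x : (ℕ × ℕ) × List ℕ => x.2.length = x.1.2 ∧
        ∀ i < x.1.2, x.2[i]? = some ((x.1.1 / PP s i) % s i) := by
      refine RE.and (RE.eq (by fun_prop) (by fun_prop)) ?_
      refine RE.all_lt (p := fun (x : (ℕ × ℕ) × List ℕ) i =>
        x.2[i]? = some ((x.1.1 / PP s i) % s i)) (RE.eq ?_ ?_) (by fun_prop)
      · exact Computable.list_getElem?.comp (Computable.snd.comp Computable.fst) Computable.snd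
      · refine Computable.option_some.comp (Primrec.nat_mod.to_comp.comp
          (Primrec.nat_div.to_comp.comp ?_ ((computable_PP hs).comp Computable.snd))
          (hs.comp Computable.snd))
        exact Computable.fst.comp (Computable.fst.comp Computable.fst)
    refine h1.of_eq fun x => ?_
    constructor
    · rintro ⟨h2, h3⟩
      apply List.ext_getElem?
      intro i
      by_cases hi : i < x.1.2
      · rw [h3 i hi]
        simp [dec, hi]
      · rw [List.getElem?_eq_none (by simp [dec]; omega), List.getElem?_eq_none (by omega)]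
    · rintro h2
      rw [← h2]
      refine ⟨by simp [dec], fun i hi => by simp [dec, hi]⟩
  exact h.comp (hf.pair hg)

section idx

variable {N : ℕ → ℕ}

open Classical in
/-- the block of `n` -/
noncomputable def idx (N : ℕ → ℕ) (n : ℕ) : ℕ := if h : ∃ j, n < N (j + 1) then Nat.find h else 0

theorem idx_eq (hN : Monotone N) {n j : ℕ} (h1 : N j ≤ n) (h2 : n < N (j + 1)) :
    idx N n = j := by
  classical
  have h : ∃ j, n < N (j + 1) := ⟨j, h2⟩
  unfold idx
  rw [dif_pos h]
  apply le_antisymm
  · exact Nat.find_min' h h2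
  · by_contra hcon
    push Not at hcon
    have h3 := Nat.find_spec h
    have h4 : N (Nat.find h + 1) ≤ N j := hN hcon
    omega

theorem idx_iff (hN : ∀ n, ∃ j, n < N (j + 1)) {n j : ℕ} :
    idx N n = j ↔ n < N (j + 1) ∧ ∀ i < j, N (i + 1) ≤ n := by
  classical
  have h := hN n
  unfold idx
  rw [dif_pos h, Nat.find_eq_iff]
  simp only [not_lt]

theorem computable_idx (hc : Computable N) (hN : ∀ n, ∃ j, n < N (j + 1)) :
    Computable (idx N) := by
  apply RE.computable_of_graph
  have h : REPred fun x : ℕ × ℕ => x.1 < N (x.2 + 1) ∧ ∀ i < x.2, N (i + 1) ≤ x.1 := by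
    refine RE.and (RE.lt (by fun_prop) (by fun_prop)) ?_
    refine RE.all_lt (p := fun (x : ℕ × ℕ) i => N (i + 1) ≤ x.1) (RE.le ?_ ?_) (by fun_prop)
    · fun_prop
    · fun_prop
  exact h.of_eq fun x => (idx_iff hN).symm

end idx

end Pool.Agent.Zk92.Bushy
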