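import Pool.Agent.Zk92.Bushy.Tree
import Pool.Agent.Zk92.Bushy.Params

/-!
Forcing conditions: computably enumerable bushy trees; deciding one functional.
-/

set_option autoImplicit false

namespace Pool.Agent.Zk92.Bushy

open Pool.Agent.Helper446

section numbers

variable (c N : ℕ → ℕ)

/-- bushiness of the tree of a condition -/
def tt (B i j : ℕ) : ℕ := LL c j * 2 ^ (ee N j * ((B + 1) * 4 ^ (j - i)))

/-- bushiness which is absorbed by the bad set of a condition -/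
def vv (B i j : ℕ) : ℕ := LL c j * 2 ^ (ee N j * (B * 4 ^ (j - i)))

/-- bushiness which is left when the values below `n` are decided -/
def WW (B i n j : ℕ) : ℕ :=
  LL c j * 2 ^ (ee N j * ((4 * B + 2) * 4 ^ (j - (i + 1))) - 2 ^ (n + 1))

variable {c N} {B i n j : ℕ}

theorem four_pow (hj : i + 1 ≤ j) : 4 ^ (j - i) = 4 * 4 ^ (j - (i + 1)) := by
  rw [show j - i = (j - (i + 1)) + 1 by omega, pow_succ]
  ring

theorem two_pow_le_ee (hn : n ≤ N j) : 2 ^ (n + 1) ≤ ee N j := by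
  unfold ee
  exact Nat.pow_le_pow_right (by norm_num) (by omega)

theorem LL_pos (hc : ∀ k, 0 < c k) (j : ℕ) : 0 < LL c j := by
  unfold LL
  have := hc (j + 1)
  positivity

theorem WW_pos (hc : ∀ k, 0 < c k) : 0 < WW c N B i n j := by
  have := LL_pos hc j
  unfold WW
  positivity

theorem vv_pos (hc : ∀ k, 0 < c k) : 0 < vv c N B i j := by
  have := LL_pos hc j
  unfold vv
  positivity

theorem vv_lt_tt (hc : ∀ k, 0 < c k) : vv c N B i j < tt c N B i j := by
  have := LL_pos hc j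
  unfold vv tt
  refine Nat.mul_lt_mul_of_pos_left (Nat.pow_lt_pow_right (by norm_num) ?_) this
  have h1 : 0 < ee N j := by unfold ee; positivity
  have h2 : B * 4 ^ (j - i) < (B + 1) * 4 ^ (j - i) :=
    Nat.mul_lt_mul_of_pos_right (Nat.lt_succ_self _) (by positivity)
  exact Nat.mul_lt_mul_of_pos_left h2 h1

theorem tt_le_D (hj : i + 1 ≤ j) : tt c N (4 * B + 2) (i + 1) j ≤ tt c N B i j := by
  unfold tt
  refine Nat.mul_le_mul_left _ (Nat.pow_le_pow_right (by norm_num) (Nat.mul_le_mul_left _ ?_))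
  rw [four_pow hj]
  have : 0 < 4 ^ (j - (i + 1)) := by positivity
  nlinarith

theorem vv_eq (hj : i + 1 ≤ j) : vv c N (4 * B) (i + 1) j = vv c N B i j := by
  unfold vv
  rw [four_pow hj]
  congr 3
  ring

theorem vv_le_WW (hj : i + 1 ≤ j) (hn : n ≤ N j) : vv c N B i j ≤ WW c N B i n j := by
  unfold vv WW
  refine Nat.mul_le_mul_left _ (Nat.pow_le_pow_right (by norm_num) ?_)
  rw [four_pow hj]
  have h1 := two_pow_le_ee hn
  have h2 : 0 < 4 ^ (j - (i + 1)) := by positivity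
  generalize 4 ^ (j - (i + 1)) = p at *
  apply Nat.le_sub_of_add_le
  nlinarith [Nat.mul_le_mul_left (ee N j) h2]

theorem tt_le_WW (hn : n ≤ N j) : tt c N (4 * B) (i + 1) j ≤ WW c N B i n j := by
  unfold tt WW
  refine Nat.mul_le_mul_left _ (Nat.pow_le_pow_right (by norm_num) ?_)
  have h1 := two_pow_le_ee hn
  have h2 : 0 < 4 ^ (j - (i + 1)) := by positivity
  generalize 4 ^ (j - (i + 1)) = p at *
  apply Nat.le_sub_of_add_le
  nlinarith [Nat.mul_le_mul_left (ee N j) h2]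

theorem WW_le_vv : WW c N B i n j ≤ vv c N (4 * B + 2) (i + 1) j := by
  unfold vv WW
  exact Nat.mul_le_mul_left _ (Nat.pow_le_pow_right (by norm_num) (Nat.sub_le _ _))

theorem WW_le_tt (hj : i + 1 ≤ j) : WW c N B i n j ≤ tt c N B i j := by
  unfold tt WW
  refine Nat.mul_le_mul_left _ (Nat.pow_le_pow_right (by norm_num) ?_)
  refine (Nat.sub_le _ _).trans (Nat.mul_le_mul_left _ ?_)
  rw [four_pow hj]
  have h2 : 0 < 4 ^ (j - (i + 1)) := by positivity
  nlinarith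

theorem WW_succ (hn : n < N j) :
    (2 ^ 2 ^ n + 2) * WW c N B i (n + 1) j ≤ WW c N B i n j := by
  unfold WW
  have h1 : 2 ^ (n + 1 + 1) ≤ ee N j := two_pow_le_ee hn
  have h2 : 0 < 4 ^ (j - (i + 1)) := by positivity
  generalize 4 ^ (j - (i + 1)) = p at *
  have h3 : 2 ^ (n + 1 + 1) ≤ ee N j * ((4 * B + 2) * p) := by
    refine h1.trans (Nat.le_mul_of_pos_right _ ?_)
    positivity
  generalize ee N j * ((4 * B + 2) * p) = E at *
  have h4 : 2 ^ (n + 1 + 1) = 2 * 2 ^ (n + 1) := by ring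
  have h5 : E - 2 ^ (n + 1) = 2 ^ (n + 1) + (E - 2 ^ (n + 1 + 1)) := by omega
  have h6 : 2 ^ 2 ^ n + 2 ≤ 2 ^ 2 ^ (n + 1) := by
    have h7 : 2 ^ 2 ^ (n + 1) = 2 ^ 2 ^ n * 2 ^ 2 ^ n := by
      rw [← pow_add]; congr 1; ring
    have h8 : 2 ≤ 2 ^ 2 ^ n := by
      calc 2 = 2 ^ 1 := (pow_one 2).symm
        _ ≤ 2 ^ 2 ^ n := Nat.pow_le_pow_right (by norm_num) Nat.one_le_two_pow
    rw [h7]
    nlinarith
  rw [h5, pow_add 2 (2 ^ (n + 1)) (E - 2 ^ (n + 1 + 1))]
  calc (2 ^ 2 ^ n + 2) * (LL c j * 2 ^ (E - 2 ^ (n + 1 + 1)))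
      ≤ 2 ^ 2 ^ (n + 1) * (LL c j * 2 ^ (E - 2 ^ (n + 1 + 1))) := Nat.mul_le_mul_right _ h6
    _ = _ := Nat.mul_left_comm _ _ _

theorem computable_WW (hc : Computable c) (hN : Computable N) {α : Type*} [Primcodable α]
    {f g : α → ℕ} (hf : Computable f) (hg : Computable g) :
    Computable fun x => WW c N B i (f x) (g x) := by
  unfold WW LL ee
  fun_prop

theorem computable_vv (hc : Computable c) (hN : Computable N) {α : Type*} [Primcodable α]
    {g : α → ℕ} (hg : Computable g) : Computable fun x => vv c N B i (g x) := by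
  unfold vv LL ee
  fun_prop

theorem computable_ss (hc : Computable c) (hN : Computable N) : Computable (ss c N) := by
  unfold ss LL ee
  fun_prop

end numbers

/-- A forcing condition. -/
structure Cd (c N : ℕ → ℕ) where
  /-- index of the step -/
  i : ℕ
  /-- loss so far -/
  B : ℕ
  /-- the stem -/
  σ : List ℕ
  /-- the tree -/
  T : List ℕ → Prop
  /-- the bad set -/
  U : List ℕ → Prop
  len : i ≤ σ.length
  reT : REPred T
  reU : REPred U
  T0 : T σ
  U0 : ¬ U σ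
  above : ∀ τ, T τ → σ <+: τ
  pre : ∀ τ a, σ <+: τ → T (τ ++ [a]) → T τ
  bdd : ∀ τ, T τ → ∀ j a, τ[j]? = some a → a < ss c N j
  up : ∀ τ a, T τ → U τ → T (τ ++ [a]) → U (τ ++ [a])
  bush : ∀ τ, T τ → ¬ U τ → ∃ S : Finset ℕ, tt c N B i τ.length ≤ S.card ∧ ∀ a ∈ S, T (τ ++ [a])
  closed : ∀ τ, T τ → Big (vv c N B i) (fun ρ => T ρ ∧ U ρ) τ → U τ

/-- extension of conditions -/
structure Cd.Le {c N : ℕ → ℕ} (q p : Cd c N) : Prop where
  stem : p.σ <+: q.σ
  tree : ∀ τ, q.T τ → p.T τ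
  bad : ∀ τ, q.T τ → p.U τ → q.U τ

theorem Cd.Le.refl {c N : ℕ → ℕ} (p : Cd c N) : p.Le p :=
  ⟨List.prefix_rfl, fun _ h => h, fun _ _ h => h⟩

theorem Cd.Le.trans {c N : ℕ → ℕ} {p q r : Cd c N} (h1 : r.Le q) (h2 : q.Le p) : r.Le p :=
  ⟨h2.stem.trans h1.stem, fun τ h => h2.tree τ (h1.tree τ h),
    fun τ h hU => h1.bad τ h (h2.bad τ (h1.tree τ h) hU)⟩

theorem re_prefix {α : Type*} [Primcodable α] {f g : α → List ℕ} (hf : Computable f)
    (hg : Computable g) : REPred fun x => f x <+: g x := by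
  refine (RE.eq (computable_take hg (Computable.list_length.comp hf)) hf).of_eq fun x => ?_
  rw [List.prefix_iff_eq_take]
  exact ⟨fun h => h.symm, fun h => h.symm⟩

section cond

variable {c N : ℕ → ℕ}

/-- passing to a longer stem -/
def Cd.restrict (p : Cd c N) (τ : List ℕ) (hT : p.T τ) (hU : ¬ p.U τ) : Cd c N where
  i := p.i
  B := p.B
  σ := τ
  T := fun ρ => p.T ρ ∧ τ <+: ρ
  U := p.U
  len := p.len.trans (p.above τ hT).length_le
  reT := RE.and p.reT (re_prefix (Computable.const τ) Computable.id)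
  reU := p.reU
  T0 := ⟨hT, List.prefix_rfl⟩
  U0 := hU
  above := fun ρ h => h.2
  pre := fun ρ a h1 h2 => ⟨p.pre ρ a ((p.above τ hT).trans h1) h2.1, h1⟩
  bdd := fun ρ h => p.bdd ρ h.1
  up := fun ρ a h1 h2 h3 => p.up ρ a h1.1 h2 h3.1
  bush := fun ρ h1 h2 => by
    obtain ⟨S, hS, h⟩ := p.bush ρ h1.1 h2
    exact ⟨S, hS, fun a ha => ⟨h a ha, h1.2.trans (List.prefix_append _ _)⟩⟩
  closed := fun ρ h1 h2 => p.closed ρ h1.1 (h2.mono (fun _ _ => le_rfl)
    fun μ _ h => ⟨h.1.1, h.2⟩)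

theorem Cd.restrict_le (p : Cd c N) (τ : List ℕ) (hT : p.T τ) (hU : ¬ p.U τ) :
    (p.restrict τ hT hU).Le p :=
  ⟨p.above τ hT, fun _ h => h.1, fun _ _ h => h⟩

/-- there is a good child -/
theorem Cd.exists_child (hc : ∀ k, 0 < c k) (p : Cd c N) {τ : List ℕ} (hT : p.T τ)
    (hU : ¬ p.U τ) : ∃ a, p.T (τ ++ [a]) ∧ ¬ p.U (τ ++ [a]) := by
  by_contra hcon
  push Not at hcon
  obtain ⟨S, hS, h⟩ := p.bush τ hT hU
  refine hU (p.closed τ hT (.node S ((vv_lt_tt hc).le.trans hS) fun a ha => ?_))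
  exact .leaf ⟨h a ha, hcon a (h a ha)⟩

/-- the tree is closed under initial segments above the stem -/
theorem Cd.pre' (p : Cd c N) {τ ρ : List ℕ} (h1 : p.σ <+: τ) (h2 : τ <+: ρ) (h3 : p.T ρ) :
    p.T τ := by
  induction ρ using List.reverseRecOn with
  | nil => rw [List.prefix_nil.1 h2]; exact h3
  | append_singleton ρ a ih =>
    rcases List.prefix_concat_iff.1 h2 with h4 | h4
    · rw [h4]; exact h3
    · exact ih h4 (p.pre _ a (h1.trans h4) h3)

theorem Cd.up' (p : Cd c N) {τ ρ : List ℕ} (h0 : p.T τ) (h1 : p.U τ) (h2 : τ <+: ρ)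
    (h3 : p.T ρ) : p.U ρ := by
  induction ρ using List.reverseRecOn with
  | nil => rw [← List.prefix_nil.1 h2]; exact h1
  | append_singleton ρ a ih =>
    rcases List.prefix_concat_iff.1 h2 with h4 | h4
    · rw [← h4]; exact h1
    · have h5 : p.T ρ := p.pre _ a ((p.above τ h0).trans h4) h3
      exact p.up _ a h5 (ih h4 h5) h3

end cond

end Pool.Agent.Zk92.Bushy
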