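import Pool.Agent.Zk92.Bushy.Step

/-!
Deciding one functional: the divergence case and the tree of the convergence case.
-/

set_option autoImplicit false

namespace Pool.Agent.Zk92.Bushy

open Pool.Agent.Helper446

/-- initial segments of a function -/
def pref (f : ℕ → ℕ) (m : ℕ) : List ℕ := (List.range m).map f

theorem pref_length (f : ℕ → ℕ) (m : ℕ) : (pref f m).length = m := by simp [pref]

theorem pref_succ (f : ℕ → ℕ) (m : ℕ) : pref f (m + 1) = pref f m ++ [f m] := by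
  simp [pref, List.range_succ]

theorem pref_prefix (f : ℕ → ℕ) {m n : ℕ} (h : m ≤ n) : pref f m <+: pref f n := by
  induction n, h using Nat.le_induction with
  | base => exact List.prefix_rfl
  | succ n _ ih => rw [pref_succ]; exact ih.trans (List.prefix_append _ _)

theorem pref_getElem? (f : ℕ → ℕ) {m i : ℕ} (h : i < m) : (pref f m)[i]? = some (f i) := by
  simp [pref, h]

/-- a functional, given by its values on initial segments -/
structure Fnl (φ : List ℕ → ℕ → Option ℕ) : Prop where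
  comp : Computable₂ φ
  mono : ∀ τ τ' n v, τ <+: τ' → φ τ n = some v → φ τ' n = some v

/-- the functional `φ` is defeated by the condition: its value along a path through the condition
is not a function below `2 ^ 2 ^ n` which is eventually different from all computable functions -/
def Good (φ : List ℕ → ℕ → Option ℕ) {c N : ℕ → ℕ} (p : Cd c N) : Prop :=
  ∀ f : ℕ → ℕ, (∀ m, p.σ.length ≤ m → p.T (pref f m) ∧ ¬ p.U (pref f m)) →
    ∀ z : ℕ → ℕ, (∀ n, z n < 2 ^ 2 ^ n) → (∀ n, ∃ m, φ (pref f m) n = some (z n)) →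
      ∃ x : ℕ → ℕ, Computable x ∧ ∀ M, ∃ n, M ≤ n ∧ x n = z n

section caseD

variable {c N : ℕ → ℕ}

/-- the set used in the divergence case -/
def DD (p : Cd c N) (φ : List ℕ → ℕ → Option ℕ) (n : ℕ) (ρ : List ℕ) : Prop :=
  p.T ρ ∧ (p.U ρ ∨ ∃ v, φ ρ n = some v)

theorem re_DD (p : Cd c N) {φ : List ℕ → ℕ → Option ℕ} (hφ : Fnl φ) (n : ℕ) :
    REPred (DD p φ n) := by
  have h : REPred fun ρ : List ℕ => ∃ v, φ ρ n = some v := by
    refine RE.ex (p := fun (ρ : List ℕ) v => φ ρ n = some v) (RE.eq ?_ ?_)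
    · exact hφ.comp.comp Computable.fst (Computable.const n)
    · exact Computable.option_some.comp Computable.snd
  exact RE.and p.reT (RE.or p.reU h)

theorem caseD (hcp : ∀ k, 0 < c k) (hc : Computable c) (hN : Computable N) (p : Cd c N)
    {φ : List ℕ → ℕ → Option ℕ} (hφ : Fnl φ)
    (hlen : p.i + 1 ≤ p.σ.length) {τ : List ℕ} (hT : p.T τ) (n : ℕ)
    (hbig : ¬ Big (vv c N (4 * p.B + 2) (p.i + 1)) (DD p φ n) τ) :
    ∃ q : Cd c N, q.Le p ∧ q.i = p.i + 1 ∧ Good φ q := by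
  have hτ := p.above τ hT
  let w := vv c N (4 * p.B + 2) (p.i + 1)
  let U' : List ℕ → Prop := fun ρ => ∃ μ, μ <+: ρ ∧ τ.length ≤ μ.length ∧ Big w (DD p φ n) μ
  have hUU' : ∀ ρ, τ <+: ρ → DD p φ n ρ → U' ρ := fun ρ h1 h2 =>
    ⟨ρ, List.prefix_rfl, h1.length_le, .leaf h2⟩
  refine ⟨{ i := p.i + 1, B := 4 * p.B + 2, σ := τ, T := fun ρ => p.T ρ ∧ τ <+: ρ, U := U',
            len := hlen.trans hτ.length_le, reT := ?_, reU := ?_, T0 := ⟨hT, List.prefix_rfl⟩,
            U0 := ?_, above := fun ρ h => h.2,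
            pre := fun ρ a h1 h2 => ⟨p.pre ρ a (hτ.trans h1) h2.1, h1⟩,
            bdd := fun ρ h => p.bdd ρ h.1, up := ?_, bush := ?_, closed := ?_ }, ?_, rfl, ?_⟩
  · exact RE.and p.reT (re_prefix (Computable.const τ) Computable.id)
  · refine RE.ex (p := fun (ρ μ : List ℕ) => μ <+: ρ ∧ τ.length ≤ μ.length ∧
      Big w (DD p φ n) μ) ?_
    refine RE.and (re_prefix Computable.snd Computable.fst) (RE.and ?_ ?_)
    · exact RE.le (Computable.const _) (Computable.list_length.comp Computable.snd)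
    · refine re_big (w := fun (_ : List ℕ × List ℕ) => w) (C := fun _ => DD p φ n) ?_ ?_
        Computable.snd
      · exact computable_vv hc hN Computable.snd
      · exact RE.comp (re_DD p hφ n) Computable.snd
  · rintro ⟨μ, h1, h2, h3⟩
    rw [h1.eq_of_length_le h2] at h3
    exact hbig h3
  · rintro ρ a h1 ⟨μ, h2, h3⟩ h4
    exact ⟨μ, h2.trans (List.prefix_append _ _), h3⟩
  · intro ρ h1 h2
    have h3 : ¬ p.U ρ := fun h => h2 (hUU' ρ h1.2 ⟨h1.1, Or.inl h⟩)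
    obtain ⟨S, hS, h⟩ := p.bush ρ h1.1 h3
    refine ⟨S, le_trans (tt_le_D ?_) hS, fun a ha => ⟨h a ha, h1.2.trans (List.prefix_append _ _)⟩⟩
    exact (hlen.trans hτ.length_le).trans h1.2.length_le
  · intro ρ h1 h2
    exact Big.up h1.2.length_le (h2.mono (fun _ _ => le_rfl) fun μ _ h => h.2)
      fun _ _ => vv_pos hcp
  · refine ⟨hτ, fun _ h => h.1, fun ρ h1 h2 => hUU' ρ h1.2 ⟨h1.1, Or.inl h2⟩⟩
  · intro f hf z _ hz
    exfalso
    obtain ⟨m, hm⟩ := hz n
    obtain ⟨h1, h2⟩ := hf (max τ.length m) (le_max_left _ _)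
    exact h2 (hUU' _ h1.2 ⟨h1.1, Or.inr ⟨_, hφ.mono _ _ _ _ (pref_prefix f (le_max_right _ _)) hm⟩⟩)

end caseD

section caseC

variable {c N : ℕ → ℕ}

/-- the values of the functional along `ρ` on the arguments `a0`, `a0 + 1`, ... are `K` -/
def CK (φ : List ℕ → ℕ → Option ℕ) (a0 : ℕ) (K ρ : List ℕ) : Prop :=
  ∀ r < K.length, ∃ v, φ ρ (a0 + r) = some v ∧ K[r]? = some (min v (2 ^ 2 ^ (a0 + r)))

theorem CK.mono {φ : List ℕ → ℕ → Option ℕ} (hφ : Fnl φ) {a0 : ℕ} {K ρ ρ' : List ℕ}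
    (h : CK φ a0 K ρ) (hρ : ρ <+: ρ') : CK φ a0 K ρ' := by
  intro r hr
  obtain ⟨v, h1, h2⟩ := h r hr
  exact ⟨v, hφ.mono _ _ _ _ hρ h1, h2⟩

theorem CK.snoc {φ : List ℕ → ℕ → Option ℕ} {a0 : ℕ} {K ρ : List ℕ} {v : ℕ}
    (h : CK φ a0 K ρ) (hv : φ ρ (a0 + K.length) = some v) :
    CK φ a0 (K ++ [min v (2 ^ 2 ^ (a0 + K.length))]) ρ := by
  intro r hr
  rw [List.length_append] at hr
  rcases Nat.lt_or_ge r K.length with h1 | h1
  · obtain ⟨u, h2, h3⟩ := h r h1
    exact ⟨u, h2, by rw [List.getElem?_append_left h1]; exact h3⟩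
  · have h2 : r = K.length := by simp only [List.length_cons, List.length_nil] at hr; omega
    subst h2
    exact ⟨v, hv, by simp⟩

theorem re_CK {φ : List ℕ → ℕ → Option ℕ} (hφ : Fnl φ) (a0 : ℕ) {α : Type*} [Primcodable α]
    {f g : α → List ℕ} (hf : Computable f) (hg : Computable g) :
    REPred fun x => CK φ a0 (f x) (g x) := by
  refine RE.all_lt (p := fun (x : α) r => ∃ v, φ (g x) (a0 + r) = some v ∧
    (f x)[r]? = some (min v (2 ^ 2 ^ (a0 + r)))) ?_ (Computable.list_length.comp hf)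
  refine RE.ex (p := fun (x : α × ℕ) v => φ (g x.1) (a0 + x.2) = some v ∧
    (f x.1)[x.2]? = some (min v (2 ^ 2 ^ (a0 + x.2)))) (RE.and (RE.eq ?_ ?_) (RE.eq ?_ ?_))
  · exact hφ.comp.comp (hg.comp (Computable.fst.comp Computable.fst))
      (Primrec.nat_add.to_comp.comp (Computable.const a0) (Computable.snd.comp Computable.fst))
  · exact Computable.option_some.comp Computable.snd
  · exact Computable.list_getElem?.comp (hf.comp (Computable.fst.comp Computable.fst))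
      (Computable.snd.comp Computable.fst)
  · fun_prop

variable (p : Cd c N) (φ : List ℕ → ℕ → Option ℕ)

/-- the first argument which matters -/
def A0 : ℕ := N p.σ.length

/-- the label `K` is forced above `τ` -/
def BK (K τ : List ℕ) (n : ℕ) : Prop :=
  Big (WW c N p.B p.i n) (fun ρ => p.T ρ ∧ CK φ (A0 p) K ρ) τ

variable {p φ}

theorem one_value (hφ : Fnl φ) (hlen : p.i + 1 ≤ p.σ.length) (hNm : Monotone N)
    (hC : ∀ τ n, p.T τ → ¬ p.U τ → Big (vv c N (4 * p.B + 2) (p.i + 1)) (DD p φ n) τ)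
    {ρ K : List ℕ} (hT : p.T ρ) (hU : ¬ p.U ρ) (hn : A0 p + K.length < N ρ.length)
    (hB : BK p φ K ρ (A0 p + K.length)) : ∃ v, BK p φ (K ++ [v]) ρ (A0 p + K.length + 1) := by
  have hl : p.i + 1 ≤ ρ.length := hlen.trans (p.above ρ hT).length_le
  generalize hnn : A0 p + K.length = n at *
  let D : ℕ → List ℕ → Prop := fun v μ => (v ≤ 2 ^ 2 ^ n ∧ p.T μ ∧ CK φ (A0 p) (K ++ [v]) μ) ∨
    (v = 2 ^ 2 ^ n + 1 ∧ p.T μ ∧ p.U μ)
  have h1 : Big (WW c N p.B p.i n) (fun μ => (p.T μ ∧ CK φ (A0 p) K μ) ∧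
      (p.U μ ∨ ∃ v, φ μ n = some v)) ρ := by
    refine Big.trans hB fun μ hμ h => ?_
    by_cases hUμ : p.U μ
    · exact .leaf ⟨h, Or.inl hUμ⟩
    · refine (hC μ n h.1 hUμ).mono (fun j _ => WW_le_vv) fun μ' hμ' h' => ?_
      exact ⟨⟨h'.1, h.2.mono hφ hμ'⟩, h'.2⟩
  obtain ⟨v, hv, h2⟩ := Big.color (w' := WW c N p.B p.i (n + 1)) (q := 2 ^ 2 ^ n + 2) (D := D) h1
    (Nat.succ_pos _) (fun j hj => WW_succ (hn.trans_le (hNm hj))) (by
      rintro μ hμ ⟨⟨h3, h4⟩, h5 | ⟨v, h5⟩⟩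
      · exact ⟨2 ^ 2 ^ n + 1, Nat.lt_succ_self _, Or.inr ⟨rfl, h3, h5⟩⟩
      · refine ⟨min v (2 ^ 2 ^ n), Nat.lt_succ_of_le ((min_le_right _ _).trans (Nat.le_succ _)),
          Or.inl ⟨min_le_right _ _, h3, ?_⟩⟩
        have := h4.snoc (v := v) (by rw [hnn]; exact h5)
        rwa [hnn] at this)
  by_cases hcase : v ≤ 2 ^ 2 ^ n
  · refine ⟨v, h2.mono (fun _ _ => le_rfl) ?_⟩
    rintro μ _ (⟨-, h3⟩ | ⟨h3, -⟩)
    · exact h3
    · exact absurd hcase (by rw [h3]; exact Nat.not_succ_le_self _)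
  · exfalso
    apply hU
    refine p.closed ρ hT (h2.mono (fun j hj => ?_) ?_)
    · exact vv_le_WW (hl.trans hj) (by have := hNm hj; omega)
    · rintro μ _ (⟨h3, -⟩ | ⟨-, h3⟩)
      · exact absurd h3 hcase
      · exact h3

theorem all_values (hφ : Fnl φ) (hlen : p.i + 1 ≤ p.σ.length) (hNm : Monotone N)
    (hC : ∀ τ n, p.T τ → ¬ p.U τ → Big (vv c N (4 * p.B + 2) (p.i + 1)) (DD p φ n) τ)
    {ρ : List ℕ} (hT : p.T ρ) (hU : ¬ p.U ρ) (d : ℕ) : ∀ {K : List ℕ},
    A0 p + K.length + d = N ρ.length → BK p φ K ρ (A0 p + K.length) →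
      ∃ K', K <+: K' ∧ A0 p + K'.length = N ρ.length ∧ BK p φ K' ρ (N ρ.length) := by
  induction d with
  | zero =>
    intro K h1 h2
    refine ⟨K, List.prefix_rfl, by omega, ?_⟩
    rw [← h1]; exact h2
  | succ d ih =>
    intro K h1 h2
    obtain ⟨v, hv⟩ := one_value hφ hlen hNm hC hT hU (by omega) h2
    have h3 : A0 p + (K ++ [v]).length = A0 p + K.length + 1 := by
      rw [List.length_append]; rfl
    obtain ⟨K', h4, h5, h6⟩ := ih (K := K ++ [v]) (by omega) (by rw [h3]; exact hv)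
    exact ⟨K', (List.prefix_append _ _).trans h4, h5, h6⟩

end caseC

end Pool.Agent.Zk92.Bushy
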