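import Pool.Agent.Zk92.Bushy.Radix

/-!
The convergence case: a computable tree which decides the functional.
-/

set_option autoImplicit false

namespace Pool.Agent.Zk92.Bushy

open Pool.Agent.Helper446

section caseC

variable {c N : ℕ → ℕ}

/-- the admissible labels -/
def QQ (p : Cd c N) (φ : List ℕ → ℕ → Option ℕ) (τ K : List ℕ) : Prop :=
  p.T τ ∧ A0 p + K.length = N τ.length ∧ (p.U τ ∨ BK p φ K τ (N τ.length))

/-- the admissible lists of children -/
def RR (p : Cd c N) (φ : List ℕ → ℕ → Option ℕ) (x : List ℕ × List ℕ)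
    (S : List (ℕ × List ℕ)) : Prop :=
  (S.map Prod.fst).Nodup ∧
    (∀ y ∈ S, x.2 <+: y.2 ∧ p.T (x.1 ++ [y.1]) ∧ A0 p + y.2.length = N (x.1.length + 1) ∧
      (p.U (x.1 ++ [y.1]) ∨ BK p φ y.2 (x.1 ++ [y.1]) (N (x.1.length + 1)))) ∧
    (p.U x.1 ∨ WW c N p.B p.i (N x.1.length) x.1.length ≤ S.length)

theorem re_BK (hc : Computable c) (hN : Computable N) (p : Cd c N)
    {φ : List ℕ → ℕ → Option ℕ} (hφ : Fnl φ) {α : Type*} [Primcodable α] {f g : α → List ℕ}
    {h : α → ℕ} (hf : Computable f) (hg : Computable g) (hh : Computable h) :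
    REPred fun x => BK p φ (f x) (g x) (h x) := by
  unfold BK
  refine re_big (w := fun (x : α) => WW c N p.B p.i (h x))
    (C := fun x ρ => p.T ρ ∧ CK φ (A0 p) (f x) ρ) ?_ ?_ hg
  · exact computable_WW hc hN (hh.comp Computable.fst) Computable.snd
  · exact RE.and (RE.comp p.reT Computable.snd) (re_CK hφ _ (hf.comp Computable.fst)
      Computable.snd)

theorem re_RR (hc : Computable c) (hN : Computable N) (p : Cd c N)
    {φ : List ℕ → ℕ → Option ℕ} (hφ : Fnl φ) :
    REPred fun x : (List ℕ × List ℕ) × List (ℕ × List ℕ) => RR p φ x.1 x.2 := by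
  unfold RR
  have h1 : REPred fun x : (List ℕ × List ℕ) × List (ℕ × List ℕ) => (x.2.map Prod.fst).Nodup :=
    re_nodup (RE.cmapfst Computable.snd)
  have e1 : Computable fun z : ((List ℕ × List ℕ) × List (ℕ × List ℕ)) × (ℕ × List ℕ) =>
      z.1.1.1 := Computable.fst.comp (Computable.fst.comp Computable.fst)
  have e2 : Computable fun z : ((List ℕ × List ℕ) × List (ℕ × List ℕ)) × (ℕ × List ℕ) =>
      z.1.1.2 := Computable.snd.comp (Computable.fst.comp Computable.fst)
  have e3 : Computable fun z : ((List ℕ × List ℕ) × List (ℕ × List ℕ)) × (ℕ × List ℕ) =>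
      z.2.1 := Computable.fst.comp Computable.snd
  have e4 : Computable fun z : ((List ℕ × List ℕ) × List (ℕ × List ℕ)) × (ℕ × List ℕ) =>
      z.2.2 := Computable.snd.comp Computable.snd
  have e5 : Computable fun z : ((List ℕ × List ℕ) × List (ℕ × List ℕ)) × (ℕ × List ℕ) =>
      z.1.1.1 ++ [z.2.1] := computable_snoc e1 e3
  have e6 : Computable fun z : ((List ℕ × List ℕ) × List (ℕ × List ℕ)) × (ℕ × List ℕ) =>
      N (z.1.1.1.length + 1) := hN.comp (Computable.succ.comp (Computable.list_length.comp e1))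
  have h2 : REPred fun x : (List ℕ × List ℕ) × List (ℕ × List ℕ) =>
      ∀ y ∈ x.2, x.1.2 <+: y.2 ∧ p.T (x.1.1 ++ [y.1]) ∧
        A0 p + y.2.length = N (x.1.1.length + 1) ∧
        (p.U (x.1.1 ++ [y.1]) ∨ BK p φ y.2 (x.1.1 ++ [y.1]) (N (x.1.1.length + 1))) := by
    refine RE.all_mem (p := fun (x : (List ℕ × List ℕ) × List (ℕ × List ℕ)) (y : ℕ × List ℕ) =>
      x.1.2 <+: y.2 ∧ p.T (x.1.1 ++ [y.1]) ∧
        A0 p + y.2.length = N (x.1.1.length + 1) ∧
        (p.U (x.1.1 ++ [y.1]) ∨ BK p φ y.2 (x.1.1 ++ [y.1]) (N (x.1.1.length + 1)))) ?_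
      Computable.snd
    refine RE.and (re_prefix e2 e4) (RE.and (RE.comp p.reT e5) (RE.and (RE.eq ?_ e6)
      (RE.or (RE.comp p.reU e5) (re_BK hc hN p hφ e4 e5 e6))))
    exact Primrec.nat_add.to_comp.comp (Computable.const _) (Computable.list_length.comp e4)
  have h3 : REPred fun x : (List ℕ × List ℕ) × List (ℕ × List ℕ) =>
      p.U x.1.1 ∨ WW c N p.B p.i (N x.1.1.length) x.1.1.length ≤ x.2.length := by
    have e7 : Computable fun x : (List ℕ × List ℕ) × List (ℕ × List ℕ) => x.1.1 :=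
      Computable.fst.comp Computable.fst
    have e8 : Computable fun x : (List ℕ × List ℕ) × List (ℕ × List ℕ) => x.1.1.length :=
      Computable.list_length.comp e7
    exact RE.or (RE.comp p.reU e7) (RE.le (computable_WW hc hN (hN.comp e8) e8)
      (Computable.list_length.comp Computable.snd))
  exact RE.and h1 (RE.and h2 h3)

theorem step_exists (hcp : ∀ k, 0 < c k) (hNm : Monotone N) {p : Cd c N}
    {φ : List ℕ → ℕ → Option ℕ} (hφ : Fnl φ) (hlen : p.i + 1 ≤ p.σ.length)
    (hC : ∀ τ n, p.T τ → ¬ p.U τ → Big (vv c N (4 * p.B + 2) (p.i + 1)) (DD p φ n) τ)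
    {τ K : List ℕ} (h : QQ p φ τ K) : ∃ S, RR p φ (τ, K) S := by
  classical
  obtain ⟨hT, hK, hor⟩ := h
  by_cases hU : p.U τ
  · exact ⟨[], by simp, by simp, Or.inl hU⟩
  have hB : BK p φ K τ (N τ.length) := hor.resolve_left hU
  have hl : p.i + 1 ≤ τ.length := hlen.trans (p.above τ hT).length_le
  have hσ := p.above τ hT
  obtain ⟨S, hS, hS2⟩ : ∃ S : Finset ℕ, WW c N p.B p.i (N τ.length) τ.length ≤ S.card ∧
      ∀ a ∈ S, p.T (τ ++ [a]) ∧ BK p φ K (τ ++ [a]) (N τ.length) := by
    cases hB with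
    | leaf h =>
      obtain ⟨S, hS, h2⟩ := p.bush τ hT hU
      exact ⟨S, (WW_le_tt hl).trans hS, fun a ha => ⟨h2 a ha, .leaf ⟨h2 a ha,
        h.2.mono hφ (List.prefix_append _ _)⟩⟩⟩
    | node S hS h2 =>
      refine ⟨S, hS, fun a ha => ⟨?_, h2 a ha⟩⟩
      obtain ⟨ρ, h3, h4⟩ := (h2 a ha).exists_leaf fun j _ => WW_pos hcp
      exact p.pre' (hσ.trans (List.prefix_append _ _)) h3 h4.1
  have key : ∀ a, ∃ K' : List ℕ, a ∈ S → K <+: K' ∧ A0 p + K'.length = N (τ.length + 1) ∧
      (p.U (τ ++ [a]) ∨ BK p φ K' (τ ++ [a]) (N (τ.length + 1))) := by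
    intro a
    by_cases ha : a ∈ S
    · obtain ⟨h1, h2⟩ := hS2 a ha
      have hmon : N τ.length ≤ N (τ.length + 1) := hNm (Nat.le_succ _)
      have hlen' : (τ ++ [a]).length = τ.length + 1 := by rw [List.length_append]; rfl
      by_cases hUa : p.U (τ ++ [a])
      · refine ⟨K ++ List.replicate (N (τ.length + 1) - N τ.length) 0, fun _ =>
          ⟨List.prefix_append _ _, ?_, Or.inl hUa⟩⟩
        rw [List.length_append, List.length_replicate]
        omega
      · obtain ⟨K', h3, h4, h5⟩ := all_values hφ hlen hNm hC h1 hUa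
          (N (τ.length + 1) - N τ.length) (K := K) (by rw [hlen']; omega) (by rw [hK]; exact h2)
        rw [hlen'] at h4 h5
        exact ⟨K', fun _ => ⟨h3, h4, Or.inr h5⟩⟩
    · exact ⟨[], fun h => absurd h ha⟩
  choose g hg using key
  refine ⟨S.toList.map fun a => (a, g a), ?_, ?_, Or.inr ?_⟩
  · rw [List.map_map]
    have : (Prod.fst ∘ fun a => (a, g a)) = (id : ℕ → ℕ) := rfl
    rw [this, List.map_id]
    exact S.nodup_toList
  · intro y hy
    rw [List.mem_map] at hy
    obtain ⟨a, ha, rfl⟩ := hy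
    have ha' : a ∈ S := by simpa using ha
    obtain ⟨h1, h2, h3⟩ := hg a ha'
    exact ⟨h1, (hS2 a ha').1, h2, h3⟩
  · simpa using hS

theorem caseC (hcp : ∀ k, 0 < c k) (hc : Computable c) (hN : Computable N) (hNm : Monotone N)
    (hodd : ∀ j, j % 2 = 1 → N j + PP (ss c N) (j + 1) ≤ N (j + 1)) {p : Cd c N}
    {φ : List ℕ → ℕ → Option ℕ} (hφ : Fnl φ) (hlen : p.i + 1 ≤ p.σ.length)
    (hC : ∀ τ n, p.T τ → ¬ p.U τ → Big (vv c N (4 * p.B + 2) (p.i + 1)) (DD p φ n) τ) :
    ∃ q : Cd c N, q.Le p ∧ q.i = p.i + 1 ∧ Good φ q := by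
  obtain ⟨st, hst, hst0, hstQ, hstR, hstC⟩ := tree_exists p.σ [] (RR p φ) (re_RR hc hN p hφ)
    (QQ p φ) ⟨p.T0, rfl, Or.inr (.leaf ⟨p.T0, fun r hr => by simp at hr⟩)⟩
    (fun τ K _ h => step_exists hcp hNm hφ hlen hC h)
    (fun τ K S _ _ h => ⟨h.1, fun y hy => by
      obtain ⟨-, h2, h3, h4⟩ := h.2.1 y hy
      have hlen' : (τ ++ [y.1]).length = τ.length + 1 := by rw [List.length_append]; rfl
      refine ⟨h2, ?_, ?_⟩
      · rw [hlen']; exact h3
      · rw [hlen']; exact h4⟩)
  have hTT : ∀ τ, (∃ K, st τ = some K) → p.T τ := fun τ ⟨K, hK⟩ => (hstQ τ K hK).2.1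
  have hl : ∀ τ, p.T τ → p.i + 1 ≤ τ.length := fun τ h => hlen.trans (p.above τ h).length_le
  -- the labels grow
  have hgrow : ∀ τ a K K', st τ = some K → st (τ ++ [a]) = some K' → K <+: K' := by
    intro τ a K K' h1 h2
    obtain ⟨S, hS, h3⟩ := hstR τ K h1
    exact (hS.2.1 _ ((h3 a K').1 h2)).1
  refine ⟨{ i := p.i + 1, B := 4 * p.B, σ := p.σ, T := fun τ => ∃ K, st τ = some K, U := p.U,
            len := hlen, reT := ?_, reU := p.reU, T0 := ⟨_, hst0⟩, U0 := p.U0,
            above := ?_, pre := ?_, bdd := fun ρ h => p.bdd ρ (hTT ρ h), up := ?_, bush := ?_,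
            closed := ?_ }, ?_, rfl, ?_⟩
  · exact RE.ex (p := fun (τ K : List ℕ) => st τ = some K) (RE.eq (hst.comp Computable.fst)
      (Computable.option_some.comp Computable.snd))
  · rintro τ ⟨K, hK⟩
    exact (hstQ τ K hK).1
  · rintro τ a h1 ⟨K, hK⟩
    rcases hstC τ a K hK with h2 | h2
    · exfalso
      have h3 := h1.length_le
      rw [← h2, List.length_append] at h3
      simp at h3
    · exact h2
  · intro τ a h1 h2 h3
    exact p.up τ a (hTT _ h1) h2 (hTT _ h3)
  · rintro τ ⟨K, hK⟩ hU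
    obtain ⟨S, hS, h3⟩ := hstR τ K hK
    refine ⟨(S.map Prod.fst).toFinset, ?_, ?_⟩
    · rw [List.toFinset_card_of_nodup hS.1, List.length_map]
      exact (tt_le_WW le_rfl).trans (hS.2.2.resolve_left hU)
    · intro a ha
      rw [List.mem_toFinset, List.mem_map] at ha
      obtain ⟨y, hy, rfl⟩ := ha
      exact ⟨y.2, (h3 y.1 y.2).2 hy⟩
  · intro τ h1 h2
    refine p.closed τ (hTT _ h1) (h2.mono (fun j hj => ?_) fun ρ _ h => ⟨hTT _ h.1, h.2⟩)
    exact (vv_eq ((hl _ (hTT _ h1)).trans hj)).ge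
  · exact ⟨List.prefix_rfl, hTT, fun _ _ h => h⟩
  · -- the functional is defeated
    intro f hf0 z hz hφz
    have hf : ∀ m, p.σ.length ≤ m → (∃ K, st (pref f m) = some K) ∧ ¬ p.U (pref f m) := hf0
    have hfs : ∀ i, f i < ss c N i := by
      intro i
      obtain ⟨h1, -⟩ := hf (max p.σ.length (i + 1)) (le_max_left _ _)
      exact p.bdd _ (hTT _ h1) i (f i) (pref_getElem? f (lt_of_lt_of_le (Nat.lt_succ_self _)
        (le_max_right _ _)))
    have hss : Computable (ss c N) := computable_ss hc hN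
    have hPP : ∀ j, 0 < PP (ss c N) j := fun j => (Nat.zero_le _).trans_lt (rr_lt hfs j)
    have hbig : ∀ M, M ≤ N (2 * M) := by
      intro M
      induction M with
      | zero => exact Nat.zero_le _
      | succ M ih =>
        have h1 := hodd (2 * M + 1) (by omega)
        have h2 := hPP (2 * M + 1 + 1)
        have h3 : N (2 * M) ≤ N (2 * M + 1) := hNm (Nat.le_succ _)
        rw [show 2 * (M + 1) = 2 * M + 1 + 1 by ring]
        omega
    have hNinf : ∀ n, ∃ j, n < N (j + 1) := by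
      intro n
      refine ⟨2 * (n + 1), ?_⟩
      have h1 := hbig (n + 1)
      have h2 : N (2 * (n + 1)) ≤ N (2 * (n + 1) + 1) := hNm (Nat.le_succ _)
      omega
    have hidx := computable_idx hN hNinf
    let x : ℕ → ℕ := fun n => ((st (dec (ss c N) (n - N (idx N n)) (idx N n + 1))).getD []).getD
      (n - A0 p) 0
    have hx : Computable x := by
      refine computable_getD (Computable.option_getD (hst.comp (computable_dec hss ?_ ?_))
        (Computable.const [])) ?_
      · exact Primrec.nat_sub.to_comp.comp Computable.id (hN.comp hidx)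
      · exact Computable.succ.comp hidx
      · exact Primrec.nat_sub.to_comp.comp Computable.id (Computable.const _)
    refine ⟨x, hx, fun M => ?_⟩
    -- the level
    let j := 2 * (M + p.σ.length) + 1
    have hj1 : p.σ.length ≤ j := by omega
    have hr := rr_lt hfs (j + 1)
    have hjodd := hodd j (by omega)
    let n := N j + rr (ss c N) f (j + 1)
    have hMN : M ≤ N j := by
      have h1 := hbig (M + p.σ.length)
      have h2 : N (2 * (M + p.σ.length)) ≤ N j := hNm (Nat.le_succ _)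
      omega
    refine ⟨n, hMN.trans (Nat.le_add_right _ _), ?_⟩
    have hn1 : N j ≤ n := Nat.le_add_right _ _
    have hn2 : n < N (j + 1) := by show N j + _ < _; omega
    have hid : idx N n = j := idx_eq hNm hn1 hn2
    have hdec : dec (ss c N) (n - N (idx N n)) (idx N n + 1) = pref f (j + 1) := by
      rw [hid, show n - N j = rr (ss c N) f (j + 1) by show N j + _ - N j = _; omega]
      exact dec_rr hfs _
    obtain ⟨⟨K, hK⟩, -⟩ := hf (j + 1) (by omega)
    have hxn : x n = K.getD (n - A0 p) 0 := by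
      show ((st (dec (ss c N) (n - N (idx N n)) (idx N n + 1))).getD []).getD (n - A0 p) 0 = _
      rw [hdec, hK]
      rfl
    have hA : A0 p ≤ n := (hNm hj1).trans hn1
    obtain ⟨-, hQ2, -⟩ := (hstQ _ _ hK).2
    rw [pref_length] at hQ2
    have hrK : n - A0 p < K.length := by omega
    -- labels along the path
    have hpath : ∀ m, j + 1 ≤ m → ∀ K', st (pref f m) = some K' → K <+: K' := by
      intro m hm
      induction m, hm using Nat.le_induction with
      | base => intro K' h; rw [hK] at h; cases h; exact List.prefix_rfl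
      | succ m hm ih =>
        intro K' h
        obtain ⟨⟨K1, hK1⟩, -⟩ := hf m (by omega)
        rw [pref_succ] at h
        exact (ih K1 hK1).trans (hgrow _ _ _ _ hK1 h)
    obtain ⟨m0, hm0⟩ := hφz n
    obtain ⟨⟨K', hK'⟩, hU'⟩ := hf (max m0 (j + 1)) (by have := le_max_right m0 (j + 1); omega)
    have hKK := hpath _ (le_max_right _ _) K' hK'
    obtain ⟨hT', hQ2', hQ3'⟩ := (hstQ _ _ hK').2
    obtain ⟨ρ, hρ1, hρ2⟩ := (hQ3'.resolve_left hU').exists_leaf fun _ _ => WW_pos hcp
    obtain ⟨v, hv1, hv2⟩ := hρ2.2 (n - A0 p) (hrK.trans_le hKK.length_le)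
    have hAn : A0 p + (n - A0 p) = n := by omega
    rw [hAn] at hv1 hv2
    have hv3 := hφ.mono _ _ _ _ ((pref_prefix f (le_max_left m0 (j + 1))).trans hρ1) hm0
    have hvz : v = z n := by rw [hv1] at hv3; exact Option.some_injective _ hv3
    rw [hvz, min_eq_left (hz n).le] at hv2
    have hKn : K[n - A0 p]? = some (z n) := by
      obtain ⟨t, rfl⟩ := hKK
      rwa [List.getElem?_append_left hrK] at hv2
    rw [hxn, List.getD_eq_getElem?_getD, hKn]
    rfl

/-- one step of the construction -/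
theorem step (hcp : ∀ k, 0 < c k) (hc : Computable c) (hN : Computable N) (hNm : Monotone N)
    (hodd : ∀ j, j % 2 = 1 → N j + PP (ss c N) (j + 1) ≤ N (j + 1)) (p : Cd c N)
    {φ : List ℕ → ℕ → Option ℕ} (hφ : Fnl φ) :
    ∃ q : Cd c N, q.Le p ∧ p.σ.length < q.σ.length ∧ Good φ q := by
  obtain ⟨a, ha1, ha2⟩ := p.exists_child hcp p.T0 p.U0
  let p1 := p.restrict (p.σ ++ [a]) ha1 ha2
  have hp1 : p1.Le p := p.restrict_le _ ha1 ha2
  have hl1 : p1.σ.length = p.σ.length + 1 := by
    show (p.σ ++ [a]).length = _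
    rw [List.length_append]; rfl
  have hlen : p1.i + 1 ≤ p1.σ.length := by
    rw [hl1]
    have : p1.i = p.i := rfl
    rw [this]
    exact Nat.succ_le_succ p.len
  by_cases hC : ∀ τ n, p1.T τ → ¬ p1.U τ →
      Big (vv c N (4 * p1.B + 2) (p1.i + 1)) (DD p1 φ n) τ
  · obtain ⟨q, h1, -, h3⟩ := caseC hcp hc hN hNm hodd hφ hlen hC
    exact ⟨q, h1.trans hp1, by have := h1.stem.length_le; omega, h3⟩
  · push Not at hC
    obtain ⟨τ, n, h1, h2, h3⟩ := hC
    obtain ⟨q, h4, -, h6⟩ := caseD hcp hc hN p1 hφ hlen h1 n h3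
    exact ⟨q, h4.trans hp1, by have := h4.stem.length_le; omega, h6⟩

end caseC

end Pool.Agent.Zk92.Bushy
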