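import Pool.Agent.Zk92.Bushy.Big

/-!
Computable trees of finite sequences with labels, from recursively enumerable extension rules.
-/

set_option autoImplicit false

namespace Pool.Agent.Zk92.Bushy

open Pool.Agent.Helper446

section

variable {α : Type*} {β : Type*} [Primcodable α] [Primcodable β]

theorem re_graph {f : α →. β} (hf : Partrec f) : REPred fun x : α × β => x.2 ∈ f x.1 := by
  have h1 : REPred fun y : (α × β) × β => y.2 = y.1.2 :=
    RE.eq Computable.snd (Computable.snd.comp Computable.fst)
  have h : Partrec fun x : α × β => (f x.1).bind fun b =>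
      (Part.assert (b = x.2) fun _ => Part.some ()) :=
    Partrec.bind (hf.comp Computable.fst) h1
  refine h.dom_re.of_eq fun x => ?_
  rw [Part.dom_iff_mem]
  constructor
  · rintro ⟨u, hu⟩
    obtain ⟨b, hb, hu⟩ := Part.mem_bind_iff.1 hu
    obtain ⟨h2, -⟩ := Part.mem_assert_iff.1 hu
    rwa [← h2]
  · intro hx
    exact ⟨(), Part.mem_bind_iff.2 ⟨x.2, hx, Part.mem_assert_iff.2 ⟨rfl, Part.mem_some _⟩⟩⟩

theorem computable_take {f : α → List β} {g : α → ℕ} (hf : Computable f) (hg : Computable g) :
    Computable fun a => (f a).take (g a) := by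
  apply RE.computable_of_graph
  have h : REPred fun x : α × List β => (x.2.length ≤ g x.1 ∧ x.2.length ≤ (f x.1).length ∧
      (x.2.length = g x.1 ∨ x.2.length = (f x.1).length)) ∧
      ∀ i < x.2.length, x.2[i]? = (f x.1)[i]? := by
    refine RE.and (RE.and ?_ (RE.and ?_ (RE.or ?_ ?_))) ?_
    · exact RE.le (Computable.list_length.comp Computable.snd) (hg.comp Computable.fst)
    · exact RE.le (Computable.list_length.comp Computable.snd)
        (Computable.list_length.comp (hf.comp Computable.fst))
    · exact RE.eq (Computable.list_length.comp Computable.snd) (hg.comp Computable.fst)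
    · exact RE.eq (Computable.list_length.comp Computable.snd)
        (Computable.list_length.comp (hf.comp Computable.fst))
    · refine RE.all_lt (p := fun (x : α × List β) i => x.2[i]? = (f x.1)[i]?) ?_
        (Computable.list_length.comp Computable.snd)
      exact RE.eq (Computable.list_getElem?.comp (Computable.snd.comp Computable.fst)
        Computable.snd) (Computable.list_getElem?.comp
          (hf.comp (Computable.fst.comp Computable.fst)) Computable.snd)
  refine h.of_eq fun x => ?_
  constructor
  · rintro ⟨⟨h1, h2, h3⟩, h4⟩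
    apply List.ext_getElem?
    intro i
    by_cases hi : i < x.2.length
    · rw [h4 i hi, List.getElem?_take_of_lt (by omega)]
    · rw [List.getElem?_eq_none (by omega : x.2.length ≤ i), List.getElem?_eq_none]
      rw [List.length_take]
      omega
  · intro h
    have hl : x.2.length = min (g x.1) (f x.1).length := by rw [← h, List.length_take]
    refine ⟨⟨by omega, by omega, by omega⟩, fun i hi => ?_⟩
    rw [← h, List.getElem?_take_of_lt (by omega)]

end

/-- the label of the entry `a` -/
noncomputable def look (S : List (ℕ × List ℕ)) (a : ℕ) : Option (List ℕ) :=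
  open Classical in if h : ∃ K, (a, K) ∈ S then some h.choose else none

theorem look_eq_some {S : List (ℕ × List ℕ)} (hS : (S.map Prod.fst).Nodup) {a : ℕ} {K : List ℕ} :
    look S a = some K ↔ (a, K) ∈ S := by
  have huniq : ∀ K K', (a, K) ∈ S → (a, K') ∈ S → K = K' := by
    intro K K' h h'
    have h1 := List.inj_on_of_nodup_map hS h h' rfl
    simpa using h1
  unfold look
  constructor
  · intro h
    split_ifs at h with h1
    · have h2 : h1.choose = K := by simpa using h
      rw [← h2]; exact h1.choose_spec
  · intro h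
    have h1 : ∃ K, (a, K) ∈ S := ⟨K, h⟩
    rw [dif_pos h1, huniq _ _ h1.choose_spec h]

theorem look_eq_none {S : List (ℕ × List ℕ)} {a : ℕ} :
    look S a = none ↔ ∀ p ∈ S, p.1 ≠ a := by
  unfold look
  split_ifs with h
  · simp only [false_iff, not_forall]
    obtain ⟨K, hK⟩ := h
    exact ⟨_, hK, fun h => h rfl⟩
  · simp only [true_iff]
    rintro ⟨b, K⟩ hp rfl
    exact h ⟨K, hp⟩

section run

variable (k : ℕ) (K₀ : List ℕ) (f : (List ℕ × List ℕ) →. List (ℕ × List ℕ))

open Classical in
/-- one step: the label of `ρ ++ [a]`, given the label of `ρ` -/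
noncomputable def nxt (ρ : List ℕ) (a : ℕ) : Option (List ℕ) → Option (List ℕ)
  | none => none
  | some K => if h : (f (ρ, K)).Dom then look ((f (ρ, K)).get h) a else none

theorem nxt_none (ρ : List ℕ) (a : ℕ) : nxt f ρ a none = none := rfl

theorem nxt_some {ρ : List ℕ} {a : ℕ} {K : List ℕ} (h : (f (ρ, K)).Dom) :
    nxt f ρ a (some K) = look ((f (ρ, K)).get h) a := by
  classical
  show (if h : (f (ρ, K)).Dom then look ((f (ρ, K)).get h) a else none) = _
  rw [dif_pos h]

theorem nxt_eq_some {ρ : List ℕ} {a : ℕ} {o : Option (List ℕ)} {K' : List ℕ}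
    (h : nxt f ρ a o = some K') : ∃ K, o = some K ∧ ∃ hd : (f (ρ, K)).Dom,
      look ((f (ρ, K)).get hd) a = some K' := by
  classical
  rcases o with _ | K
  · rw [nxt_none] at h; cases h
  · refine ⟨K, rfl, ?_⟩
    by_cases hd : (f (ρ, K)).Dom
    · rw [nxt_some f hd] at h
      exact ⟨hd, h⟩
    · have h' : (if h : (f (ρ, K)).Dom then look ((f (ρ, K)).get h) a else none) = some K' := h
      rw [dif_neg hd] at h'
      cases h'

/-- the state after reading `k + i` entries -/
noncomputable def run (τ : List ℕ) : ℕ → Option (List ℕ)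
  | 0 => some K₀
  | i + 1 => nxt f (τ.take (k + i)) (τ.getD (k + i) 0) (run τ i)

theorem run_congr {τ τ' : List ℕ} (i : ℕ) (h : ∀ j < k + i, τ[j]? = τ'[j]?) :
    run k K₀ f τ i = run k K₀ f τ' i := by
  induction i with
  | zero => rfl
  | succ i ih =>
    have h1 := ih fun j hj => h j (by omega)
    have h2 : τ.take (k + i) = τ'.take (k + i) := by
      apply List.ext_getElem?
      intro j
      by_cases hj : j < k + i
      · rw [List.getElem?_take_of_lt hj, List.getElem?_take_of_lt hj, h j (by omega)]
      · rw [List.getElem?_eq_none (by rw [List.length_take]; omega),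
          List.getElem?_eq_none (by rw [List.length_take]; omega)]
    have h3 : τ.getD (k + i) 0 = τ'.getD (k + i) 0 := by
      rw [List.getD_eq_getElem?_getD, List.getD_eq_getElem?_getD, h _ (by omega)]
    rw [run, run, h1, h2, h3]

/-- the graph of one step -/
def StepR (f : (List ℕ × List ℕ) →. List (ℕ × List ℕ)) (ρ : List ℕ) (a : ℕ)
    (o1 o2 : Option (List ℕ)) : Prop :=
  (o1 = none ∧ o2 = none) ∨ ∃ K : List ℕ, o1 = some K ∧ ∃ S, S ∈ f (ρ, K) ∧
    ((o2 = none ∧ ∀ p ∈ S, p.1 ≠ a) ∨ ∃ K' : List ℕ, o2 = some K' ∧ (a, K') ∈ S)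

theorem re_stepR {α : Type*} [Primcodable α] {f : (List ℕ × List ℕ) →. List (ℕ × List ℕ)}
    (hf : Partrec f) {ρ : α → List ℕ} {a : α → ℕ} {o1 o2 : α → Option (List ℕ)}
    (hρ : Computable ρ) (ha : Computable a) (ho1 : Computable o1) (ho2 : Computable o2) :
    REPred fun x => StepR f (ρ x) (a x) (o1 x) (o2 x) := by
  have e1 : REPred fun x : (α × List ℕ) × List (ℕ × List ℕ) =>
      ((o2 x.1.1 = none ∧ ∀ p ∈ x.2, p.1 ≠ a x.1.1) ∨
        ∃ K' : List ℕ, o2 x.1.1 = some K' ∧ (a x.1.1, K') ∈ x.2) := by
    refine RE.or (RE.and ?_ ?_) ?_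
    · exact RE.eq (ho2.comp (Computable.fst.comp Computable.fst)) (Computable.const none)
    · refine RE.all_mem (p := fun (x : (α × List ℕ) × List (ℕ × List ℕ)) (p : ℕ × List ℕ) =>
        p.1 ≠ a x.1.1) ?_ Computable.snd
      exact RE.ne (Computable.fst.comp Computable.snd)
        (ha.comp (Computable.fst.comp (Computable.fst.comp Computable.fst)))
    · refine RE.ex (p := fun (x : (α × List ℕ) × List (ℕ × List ℕ)) (K' : List ℕ) =>
        o2 x.1.1 = some K' ∧ (a x.1.1, K') ∈ x.2) ?_
      refine RE.and (RE.eq (ho2.comp (Computable.fst.comp (Computable.fst.comp Computable.fst)))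
        (Computable.option_some.comp Computable.snd)) (RE.mem_list (Computable.pair
          (ha.comp (Computable.fst.comp (Computable.fst.comp Computable.fst))) Computable.snd)
            (Computable.snd.comp Computable.fst))
  have e2 : REPred fun x : (α × List ℕ) × List (ℕ × List ℕ) => x.2 ∈ f (ρ x.1.1, x.1.2) :=
    RE.comp (re_graph hf) (f := fun x : (α × List ℕ) × List (ℕ × List ℕ) =>
      ((ρ x.1.1, x.1.2), x.2)) (Computable.pair (Computable.pair
        (hρ.comp (Computable.fst.comp Computable.fst)) (Computable.snd.comp Computable.fst))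
          Computable.snd)
  have e3 : REPred fun x : α × List ℕ => ∃ S, S ∈ f (ρ x.1, x.2) ∧
      ((o2 x.1 = none ∧ ∀ p ∈ S, p.1 ≠ a x.1) ∨
        ∃ K' : List ℕ, o2 x.1 = some K' ∧ (a x.1, K') ∈ S) :=
    RE.ex (p := fun (x : α × List ℕ) (S : List (ℕ × List ℕ)) => S ∈ f (ρ x.1, x.2) ∧
      ((o2 x.1 = none ∧ ∀ p ∈ S, p.1 ≠ a x.1) ∨
        ∃ K' : List ℕ, o2 x.1 = some K' ∧ (a x.1, K') ∈ S)) (RE.and e2 e1)
  have e4 : REPred fun x : α => ∃ K : List ℕ, o1 x = some K ∧ ∃ S, S ∈ f (ρ x, K) ∧
      ((o2 x = none ∧ ∀ p ∈ S, p.1 ≠ a x) ∨ ∃ K' : List ℕ, o2 x = some K' ∧ (a x, K') ∈ S) :=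
    RE.ex (p := fun (x : α) (K : List ℕ) => o1 x = some K ∧ ∃ S, S ∈ f (ρ x, K) ∧
      ((o2 x = none ∧ ∀ p ∈ S, p.1 ≠ a x) ∨ ∃ K' : List ℕ, o2 x = some K' ∧ (a x, K') ∈ S))
      (RE.and (RE.eq (ho1.comp Computable.fst) (Computable.option_some.comp Computable.snd)) e3)
  exact RE.or (RE.and (RE.eq ho1 (Computable.const none)) (RE.eq ho2 (Computable.const none))) e4

/-- the graph of the labelling -/
def Graph (σ K₀ : List ℕ) (f : (List ℕ × List ℕ) →. List (ℕ × List ℕ)) (τ : List ℕ)
    (o : Option (List ℕ)) : Prop :=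
  (¬ σ <+: τ ∧ o = none) ∨ (σ <+: τ ∧ ∃ P : List (Option (List ℕ)),
    P[0]? = some (some K₀) ∧ P[τ.length - σ.length]? = some o ∧
    ∀ i < τ.length - σ.length, ∃ o1 : Option (List ℕ), P[i]? = some o1 ∧
      ∃ o2 : Option (List ℕ), P[i + 1]? = some o2 ∧
        StepR f (τ.take (σ.length + i)) (τ.getD (σ.length + i) 0) o1 o2)

theorem computable_getD {α : Type*} [Primcodable α] {l : α → List ℕ} {i : α → ℕ}
    (hl : Computable l) (hi : Computable i) : Computable fun a => (l a).getD (i a) 0 := by
  have := Computable.option_getD (Computable.list_getElem?.comp hl hi) (Computable.const 0)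
  refine this.of_eq fun x => ?_
  rw [List.getD_eq_getElem?_getD]

theorem re_Graph (σ K₀ : List ℕ) {f : (List ℕ × List ℕ) →. List (ℕ × List ℕ)}
    (hf : Partrec f) : REPred fun x : List ℕ × Option (List ℕ) => Graph σ K₀ f x.1 x.2 := by
  have hpre : ComputablePred fun τ : List ℕ => σ <+: τ := by
    refine (RE.cp_eq (computable_take Computable.id (Computable.const σ.length))
      (Computable.const σ)).of_eq fun τ => ?_
    show τ.take σ.length = σ ↔ σ <+: τ
    rw [List.prefix_iff_eq_take]
    exact ⟨fun h => h.symm, fun h => h.symm⟩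
  have hsub : Computable fun x : List ℕ × Option (List ℕ) => x.1.length - σ.length :=
    Primrec.nat_sub.to_comp.comp (Computable.list_length.comp Computable.fst)
      (Computable.const _)
  -- the innermost part
  have e1 : REPred fun z : ((((List ℕ × Option (List ℕ)) × List (Option (List ℕ))) × ℕ) ×
      Option (List ℕ)) × Option (List ℕ) =>
      z.1.1.1.2[z.1.1.2 + 1]? = some z.2 ∧
        StepR f (z.1.1.1.1.1.take (σ.length + z.1.1.2)) (z.1.1.1.1.1.getD (σ.length + z.1.1.2) 0)
          z.1.2 z.2 := by
    have hτ : Computable fun z : ((((List ℕ × Option (List ℕ)) × List (Option (List ℕ))) × ℕ) ×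
        Option (List ℕ)) × Option (List ℕ) => z.1.1.1.1.1 :=
      Computable.fst.comp (Computable.fst.comp (Computable.fst.comp (Computable.fst.comp
        Computable.fst)))
    have hP : Computable fun z : ((((List ℕ × Option (List ℕ)) × List (Option (List ℕ))) × ℕ) ×
        Option (List ℕ)) × Option (List ℕ) => z.1.1.1.2 :=
      Computable.snd.comp (Computable.fst.comp (Computable.fst.comp Computable.fst))
    have hi : Computable fun z : ((((List ℕ × Option (List ℕ)) × List (Option (List ℕ))) × ℕ) ×
        Option (List ℕ)) × Option (List ℕ) => z.1.1.2 :=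
      Computable.snd.comp (Computable.fst.comp Computable.fst)
    have hki : Computable fun z : ((((List ℕ × Option (List ℕ)) × List (Option (List ℕ))) × ℕ) ×
        Option (List ℕ)) × Option (List ℕ) => σ.length + z.1.1.2 :=
      Primrec.nat_add.to_comp.comp (Computable.const _) hi
    have h1 : Computable fun z : ((((List ℕ × Option (List ℕ)) × List (Option (List ℕ))) × ℕ) ×
        Option (List ℕ)) × Option (List ℕ) => z.1.2 := Computable.snd.comp Computable.fst
    exact RE.and (RE.eq (Computable.list_getElem?.comp hP (Computable.succ.comp hi))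
      (Computable.option_some.comp Computable.snd))
      (re_stepR hf (computable_take hτ hki) (computable_getD hτ hki) h1 Computable.snd)
  have e2 : REPred fun z : (((List ℕ × Option (List ℕ)) × List (Option (List ℕ))) × ℕ) ×
      Option (List ℕ) => ∃ o2 : Option (List ℕ), z.1.1.2[z.1.2 + 1]? = some o2 ∧
        StepR f (z.1.1.1.1.take (σ.length + z.1.2)) (z.1.1.1.1.getD (σ.length + z.1.2) 0)
          z.2 o2 :=
    RE.ex (p := fun (z : (((List ℕ × Option (List ℕ)) × List (Option (List ℕ))) × ℕ) ×
      Option (List ℕ)) (o2 : Option (List ℕ)) => z.1.1.2[z.1.2 + 1]? = some o2 ∧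
        StepR f (z.1.1.1.1.take (σ.length + z.1.2)) (z.1.1.1.1.getD (σ.length + z.1.2) 0)
          z.2 o2) e1
  have e3 : REPred fun z : ((List ℕ × Option (List ℕ)) × List (Option (List ℕ))) × ℕ =>
      ∃ o1 : Option (List ℕ), z.1.2[z.2]? = some o1 ∧ ∃ o2 : Option (List ℕ),
        z.1.2[z.2 + 1]? = some o2 ∧
        StepR f (z.1.1.1.take (σ.length + z.2)) (z.1.1.1.getD (σ.length + z.2) 0) o1 o2 :=
    RE.ex (p := fun (z : ((List ℕ × Option (List ℕ)) × List (Option (List ℕ))) × ℕ)
      (o1 : Option (List ℕ)) => z.1.2[z.2]? = some o1 ∧ ∃ o2 : Option (List ℕ),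
        z.1.2[z.2 + 1]? = some o2 ∧
        StepR f (z.1.1.1.take (σ.length + z.2)) (z.1.1.1.getD (σ.length + z.2) 0) o1 o2)
      (RE.and (RE.eq (Computable.list_getElem?.comp (Computable.snd.comp
        (Computable.fst.comp Computable.fst)) (Computable.snd.comp Computable.fst))
          (Computable.option_some.comp Computable.snd)) e2)
  have e4 : REPred fun y : (List ℕ × Option (List ℕ)) × List (Option (List ℕ)) =>
      ∀ i < y.1.1.length - σ.length, ∃ o1 : Option (List ℕ), y.2[i]? = some o1 ∧
        ∃ o2 : Option (List ℕ), y.2[i + 1]? = some o2 ∧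
          StepR f (y.1.1.take (σ.length + i)) (y.1.1.getD (σ.length + i) 0) o1 o2 :=
    RE.all_lt (p := fun (y : (List ℕ × Option (List ℕ)) × List (Option (List ℕ))) (i : ℕ) =>
      ∃ o1 : Option (List ℕ), y.2[i]? = some o1 ∧
        ∃ o2 : Option (List ℕ), y.2[i + 1]? = some o2 ∧
          StepR f (y.1.1.take (σ.length + i)) (y.1.1.getD (σ.length + i) 0) o1 o2) e3
      (hsub.comp Computable.fst)
  have e5 : REPred fun x : List ℕ × Option (List ℕ) => ∃ P : List (Option (List ℕ)),
      P[0]? = some (some K₀) ∧ P[x.1.length - σ.length]? = some x.2 ∧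
      ∀ i < x.1.length - σ.length, ∃ o1 : Option (List ℕ), P[i]? = some o1 ∧
        ∃ o2 : Option (List ℕ), P[i + 1]? = some o2 ∧
          StepR f (x.1.take (σ.length + i)) (x.1.getD (σ.length + i) 0) o1 o2 :=
    RE.ex (p := fun (x : List ℕ × Option (List ℕ)) (P : List (Option (List ℕ))) =>
      P[0]? = some (some K₀) ∧ P[x.1.length - σ.length]? = some x.2 ∧
      ∀ i < x.1.length - σ.length, ∃ o1 : Option (List ℕ), P[i]? = some o1 ∧
        ∃ o2 : Option (List ℕ), P[i + 1]? = some o2 ∧
          StepR f (x.1.take (σ.length + i)) (x.1.getD (σ.length + i) 0) o1 o2)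
      (RE.and (RE.eq (Computable.list_getElem?.comp Computable.snd (Computable.const 0))
        (Computable.const _)) (RE.and (RE.eq (Computable.list_getElem?.comp Computable.snd
          (hsub.comp Computable.fst)) (Computable.option_some.comp
            (Computable.snd.comp Computable.fst))) e4))
  exact RE.or (RE.and (RE.cp_comp hpre Computable.fst).not.to_re
    (RE.eq Computable.snd (Computable.const none)))
      (RE.and (RE.cp_comp hpre Computable.fst).to_re e5)

end run

theorem tree_exists (σ : List ℕ) (K₀ : List ℕ) (R : List ℕ × List ℕ → List (ℕ × List ℕ) → Prop)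
    (hR : REPred fun x : (List ℕ × List ℕ) × List (ℕ × List ℕ) => R x.1 x.2)
    (Q : List ℕ → List ℕ → Prop) (hQ0 : Q σ K₀)
    (hstep : ∀ τ K, σ <+: τ → Q τ K → ∃ S, R (τ, K) S)
    (hinv : ∀ τ K S, σ <+: τ → Q τ K → R (τ, K) S →
      (S.map Prod.fst).Nodup ∧ ∀ p ∈ S, Q (τ ++ [p.1]) p.2) :
    ∃ st : List ℕ → Option (List ℕ), Computable st ∧ st σ = some K₀ ∧
      (∀ τ K, st τ = some K → σ <+: τ ∧ Q τ K) ∧
      (∀ τ K, st τ = some K → ∃ S, R (τ, K) S ∧ ∀ a K', st (τ ++ [a]) = some K' ↔ (a, K') ∈ S) ∧
      (∀ τ a K', st (τ ++ [a]) = some K' → τ ++ [a] = σ ∨ ∃ K, st τ = some K) := by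
  classical
  obtain ⟨f, hf, hfdom, hfR⟩ := RE.uniformize hR
  let k := σ.length
  let g : List ℕ → ℕ → Option (List ℕ) := run k K₀ f
  let st : List ℕ → Option (List ℕ) := fun τ => if σ <+: τ then g τ (τ.length - k) else none
  have hstσ : st σ = some K₀ := by
    simp only [st, List.prefix_rfl, if_true, k, Nat.sub_self]
    rfl
  -- the recursion
  have hrec : ∀ τ a, σ <+: τ → st (τ ++ [a]) = nxt f τ a (st τ) := by
    intro τ a hτ
    have hlen : k ≤ τ.length := hτ.length_le
    have h1 : σ <+: τ ++ [a] := hτ.trans (List.prefix_append _ _)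
    have h2 : (τ ++ [a]).length - k = (τ.length - k) + 1 := by
      rw [List.length_append]; simp only [List.length_cons, List.length_nil]; omega
    have h3 : g (τ ++ [a]) (τ.length - k) = g τ (τ.length - k) := by
      refine run_congr k K₀ f _ fun j hj => ?_
      rw [List.getElem?_append_left (by omega)]
    have h4 : k + (τ.length - k) = τ.length := by omega
    have h5 : (τ ++ [a]).take (k + (τ.length - k)) = τ := by rw [h4]; simp
    have h6 : (τ ++ [a]).getD (k + (τ.length - k)) 0 = a := by
      rw [h4, List.getD_eq_getElem?_getD]; simp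
    simp only [st, if_pos h1, if_pos hτ, h2]
    show run k K₀ f (τ ++ [a]) ((τ.length - k) + 1) = _
    rw [run, show run k K₀ f (τ ++ [a]) (τ.length - k) = g τ (τ.length - k) from h3, h5, h6]
  -- the invariant
  have hQ : ∀ τ K, st τ = some K → σ <+: τ ∧ Q τ K := by
    intro τ
    induction τ using List.reverseRecOn with
    | nil =>
      intro K h
      have h1 : σ <+: [] := by
        by_contra hcon
        simp only [st, if_neg hcon, reduceCtorEq] at h
      have h2 : σ = [] := List.prefix_nil.1 h1
      subst h2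
      rw [hstσ] at h
      cases h
      exact ⟨List.prefix_rfl, hQ0⟩
    | append_singleton τ a ih =>
      intro K h
      have h1 : σ <+: τ ++ [a] := by
        by_contra hcon
        simp only [st, if_neg hcon, reduceCtorEq] at h
      refine ⟨h1, ?_⟩
      rcases List.prefix_concat_iff.1 h1 with h2 | h2
      · rw [← h2] at h ⊢
        rw [hstσ] at h
        cases h
        exact hQ0
      · rw [hrec τ a h2] at h
        obtain ⟨K1, hτ, hd, h⟩ := nxt_eq_some f h
        obtain ⟨-, hQ1⟩ := ih K1 hτ
        have hR1 := hfR _ _ (Part.get_mem hd)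
        obtain ⟨h3, h4⟩ := hinv τ K1 _ h2 hQ1 hR1
        exact h4 _ ((look_eq_some h3).1 h)
  refine ⟨st, ?_, hstσ, hQ, ?_, ?_⟩
  · -- computability
    apply RE.computable_of_graph
    refine (re_Graph σ K₀ hf).of_eq fun x => ?_
    obtain ⟨τ, o⟩ := x
    show Graph σ K₀ f τ o ↔ st τ = o
    by_cases hτ : σ <+: τ
    · have hlen : k ≤ τ.length := hτ.length_le
      have hval : ∀ i, i ≤ τ.length - k → g τ i = st (τ.take (k + i)) := by
        intro i hi
        have h1 : σ <+: τ.take (k + i) := by
          rw [List.prefix_take_iff]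
          exact ⟨hτ, by simp [k]⟩
        have h2 : (τ.take (k + i)).length - k = i := by
          rw [List.length_take]; omega
        simp only [st, if_pos h1, h2]
        refine run_congr k K₀ f _ fun j hj => ?_
        rw [List.getElem?_take_of_lt hj]
      have hstepg : ∀ i, i < τ.length - k → ∀ o2, StepR f (τ.take (k + i)) (τ.getD (k + i) 0)
          (g τ i) o2 ↔ g τ (i + 1) = o2 := by
        intro i hi o2
        have hpre' : σ <+: τ.take (k + i) := by
          rw [List.prefix_take_iff]
          exact ⟨hτ, by simp [k]⟩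
        rcases hg : g τ i with _ | K
        · have h1 : g τ (i + 1) = none := by
            show run k K₀ f τ (i + 1) = none
            rw [run, show run k K₀ f τ i = none from hg, nxt_none]
          rw [h1]
          constructor
          · rintro (⟨-, h⟩ | ⟨K, h, -⟩)
            · exact h.symm
            · simp at h
          · intro h; exact Or.inl ⟨rfl, h.symm⟩
        · have hst1 : st (τ.take (k + i)) = some K := by rw [← hval i hi.le, hg]
          obtain ⟨-, hQ1⟩ := hQ _ _ hst1
          have hd : (f (τ.take (k + i), K)).Dom := (hfdom _).2 (hstep _ _ hpre' hQ1)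
          have h1 : g τ (i + 1) = look ((f (τ.take (k + i), K)).get hd) (τ.getD (k + i) 0) := by
            show run k K₀ f τ (i + 1) = _
            rw [run, show run k K₀ f τ i = some K from hg, nxt_some f hd]
          obtain ⟨h3, -⟩ := hinv _ K _ hpre' hQ1 (hfR _ _ (Part.get_mem hd))
          rw [h1]
          constructor
          · rintro (⟨h, -⟩ | ⟨K', h, S, hS, h2⟩)
            · simp at h
            · cases h
              have hSS : S = (f (τ.take (k + i), K)).get hd := Part.mem_unique hS (Part.get_mem hd)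
              subst hSS
              rcases h2 with ⟨h2, h4⟩ | ⟨K', h2, h4⟩
              · rw [h2]; exact look_eq_none.2 h4
              · rw [h2]; exact (look_eq_some h3).2 h4
          · intro h
            refine Or.inr ⟨K, rfl, _, Part.get_mem hd, ?_⟩
            rcases o2 with _ | K'
            · exact Or.inl ⟨rfl, look_eq_none.1 h⟩
            · exact Or.inr ⟨K', rfl, (look_eq_some h3).1 h⟩
      have hst : st τ = g τ (τ.length - k) := by simp only [st, if_pos hτ]
      rw [hst]
      constructor
      · rintro (⟨h, -⟩ | ⟨-, P, hP0, hPo, hP⟩)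
        · exact absurd hτ h
        · have hall : ∀ i, i ≤ τ.length - k → P[i]? = some (g τ i) := by
            intro i
            induction i with
            | zero => intro _; exact hP0
            | succ i ih =>
              intro hi
              obtain ⟨o1, ho1, o2, ho2, hs⟩ := hP i (by omega)
              rw [ih (by omega)] at ho1
              cases ho1
              rw [ho2, (hstepg i (by omega) o2).1 hs]
          rw [hall _ le_rfl] at hPo
          exact Option.some_injective _ hPo
      · intro h
        refine Or.inr ⟨hτ, (List.range (τ.length - k + 1)).map (g τ), ?_, ?_, ?_⟩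
        · rw [List.getElem?_map, List.getElem?_range (by omega)]
          rfl
        · rw [List.getElem?_map, List.getElem?_range (by omega), ← h]
          rfl
        · intro i hi
          refine ⟨g τ i, ?_, g τ (i + 1), ?_, (hstepg i hi _).2 rfl⟩
          · rw [List.getElem?_map, List.getElem?_range (by omega)]
            rfl
          · rw [List.getElem?_map, List.getElem?_range (by omega)]
            rfl
    · have hst : st τ = none := by simp only [st, if_neg hτ]
      rw [hst]
      constructor
      · rintro (⟨-, h⟩ | ⟨h, -⟩)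
        · exact h.symm
        · exact absurd h hτ
      · intro h; exact Or.inl ⟨hτ, h.symm⟩
  · intro τ K h
    obtain ⟨h1, h2⟩ := hQ τ K h
    have hd : (f (τ, K)).Dom := (hfdom _).2 (hstep _ _ h1 h2)
    have hR1 := hfR _ _ (Part.get_mem hd)
    obtain ⟨h3, -⟩ := hinv τ K _ h1 h2 hR1
    refine ⟨_, hR1, fun a K' => ?_⟩
    rw [hrec τ a h1, h, nxt_some f hd]
    exact look_eq_some h3
  · intro τ a K' h
    obtain ⟨h1, -⟩ := hQ _ _ h
    rcases List.prefix_concat_iff.1 h1 with h2 | h2
    · exact Or.inl h2.symm
    · rw [hrec τ a h2] at h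
      obtain ⟨K, hτ, -⟩ := nxt_eq_some f h
      exact Or.inr ⟨K, hτ⟩

end Pool.Agent.Zk92.Bushy
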